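import Mathlib

set_option autoImplicit false

/-! # Typical beta'-Voronoi cell: definitions -/

namespace Pool.Agent.R970.Vor

open MeasureTheory ProbabilityTheory
open scoped ENNReal

/-- Euclidean space of dimension `d`. -/
abbrev E (d : ℕ) := EuclideanSpace ℝ (Fin d)

/-- A closed half-space. -/
def IsHalfSpace {d : ℕ} (H : Set (E d)) : Prop :=
  ∃ a : E d, a ≠ 0 ∧ ∃ b : ℝ, H = {w | inner ℝ a w ≤ b}

/-- A polytope: a bounded intersection of finitely many closed half-spaces. -/
def IsPolytope {d : ℕ} (Q : Set (E d)) : Prop :=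
  Bornology.IsBounded Q ∧ ∃ F : Set (Set (E d)), F.Finite ∧ (∀ H ∈ F, IsHalfSpace H) ∧ Q = ⋂₀ F

/-- The facets of `Q`: its nonempty exposed faces of dimension `d - 1`. -/
def facets {d : ℕ} (Q : Set (E d)) : Set (Set (E d)) :=
  {F | IsExposed ℝ Q F ∧ F.Nonempty ∧ Module.finrank ℝ (vectorSpan ℝ F) + 1 = d}

/-- `Q` is a polytope with exactly `n` facets. -/
def PolyN {d : ℕ} (n : ℕ) (Q : Set (E d)) : Prop := IsPolytope Q ∧ (facets Q).encard = n

/-- The Laguerre cell of the weighted point `x` (with `x.1` the nucleus and `x.2` the height) in the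
set `S` of weighted points. -/
def cell {d : ℕ} (S : Set (E d × ℝ)) (x : E d × ℝ) : Set (E d) :=
  {w | ∀ y ∈ S, ‖w - x.1‖ ^ 2 + x.2 ≤ ‖w - y.1‖ ^ 2 + y.2}

/-- The cell of `x` seen from its nucleus: the translate of the cell by `-x.1`. -/
def centred {d : ℕ} (S : Set (E d × ℝ)) (x : E d × ℝ) : Set (E d) := {w | w + x.1 ∈ cell S x}

variable {Ω : Type*} [MeasurableSpace Ω]

/-- The number of the points `X 0 ω, X 1 ω, ...` in `A`. -/
noncomputable def cnt {S : Type*} (X : ℕ → Ω → S) (A : Set S) (ω : Ω) : ℕ∞ := {i | X i ω ∈ A}.encard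

/-- The distinct random points `X 0, X 1, ...` form a Poisson point process with intensity measure
`μ`: the number of points in a measurable set of finite measure `μ A` has the Poisson law with
parameter `μ A`, and the numbers of points in pairwise disjoint measurable sets are independent. -/
structure IsPoisson {S : Type*} [MeasurableSpace S] (P : Measure Ω) (X : ℕ → Ω → S)
    (μ : Measure S) : Prop where
  meas : ∀ i, Measurable (X i)
  inj : ∀ᵐ ω ∂P, Function.Injective fun i => X i ω
  law : ∀ A, MeasurableSet A → μ A ≠ ∞ → ∀ k : ℕ,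
    P {ω | cnt X A ω = k} = poissonMeasure (μ A).toNNReal {k}
  indep : ∀ (n : ℕ) (A : Fin n → Set S), (∀ i, MeasurableSet (A i)) →
    Pairwise (Function.onFun Disjoint A) → iIndepFun (fun i => cnt X (A i)) P

/-- The intensity measure with density `c (-h) ^ (-β)` on `ℝ ^ d × (-∞, 0)`. -/
noncomputable def intensity (d : ℕ) (β c : ℝ) : Measure (E d × ℝ) :=
  (volume : Measure (E d × ℝ)).withDensity
    (fun x => if x.2 < 0 then ENNReal.ofReal (c * (-x.2) ^ (-β)) else 0)

/-- The expected number of the points of the process with nucleus in `B` whose cell is nonempty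
and, seen from its nucleus, has the property `D`. -/
noncomputable def ECount {d : ℕ} (P : Measure Ω) (X : ℕ → Ω → E d × ℝ) (B : Set (E d))
    (D : Set (E d) → Prop) : ℝ≥0∞ :=
  ∑' i, P {ω | (X i ω).1 ∈ B ∧ (cell (Set.range fun j => X j ω) (X i ω)).Nonempty ∧
    D (centred (Set.range fun j => X j ω) (X i ω))}

/-- The probability that the typical cell has the property `D`. -/
noncomputable def typ {d : ℕ} (P : Measure Ω) (X : ℕ → Ω → E d × ℝ) (B : Set (E d))
    (D : Set (E d) → Prop) : ℝ≥0∞ :=
  ECount P X B D / ECount P X B fun _ => True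

end Pool.Agent.R970.Vor
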