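import Pool.Agent.R970.Vor.Poly

set_option autoImplicit false

/-! Deterministic analysis of a big cell. -/

namespace Pool.Agent.R970.Vor

open Set Filter Topology
open scoped InnerProductSpace

variable {d : ℕ}

lemma mem_centred {S : Set (E d × ℝ)} {x : E d × ℝ} {w : E d} :
    w ∈ centred S x ↔ ∀ y ∈ S, ‖w‖ ^ 2 + x.2 ≤ ‖w - (y.1 - x.1)‖ ^ 2 + y.2 := by
  have h : ∀ y : E d × ℝ, w + x.1 - y.1 = w - (y.1 - x.1) := fun y => by abel
  constructor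
  · intro hw y hy
    have := hw y hy
    rwa [add_sub_cancel_right, h] at this
  · intro hw y hy
    have := hw y hy
    rwa [add_sub_cancel_right, h]

lemma le_iff_inner {a w : E d} {h k : ℝ} :
    ‖w‖ ^ 2 + h ≤ ‖w - a‖ ^ 2 + k ↔ ⟪a, w⟫_ℝ ≤ (‖a‖ ^ 2 + k - h) / 2 := by
  rw [norm_sub_sq_real, real_inner_comm]
  constructor <;> intro hh <;> linarith

theorem cell_good (hd : 2 ≤ d) {S : Set (E d × ℝ)} {x : E d × ℝ} (hx : x ∈ S) (hx2 : x.2 < 0)
    {r ε : ℝ} (hr : 0 < r) (hε : 0 < ε) (hin : Metric.closedBall 0 r ⊆ centred S x)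
    (hnet : ∀ w : E d, ‖w‖ ≤ √(-x.2) → ∃ y ∈ S, ‖w - (y.1 - x.1)‖ ^ 2 + y.2 ≤ -ε)
    (hfin : {y ∈ S | ε + (max (‖y.1 - x.1‖ - √(-x.2)) 0) ^ 2 ≤ -y.2}.Finite)
    {M : ℕ} (hM : 8 * (M : ℝ) ^ 2 * (√(-x.2) - r) < √(-x.2)) :
    ∃ n : ℕ, M ≤ n ∧ PolyN n (centred S x) := by
  classical
  set R := √(-x.2) with hR
  have hR2 : R ^ 2 = -x.2 := Real.sq_sqrt (by linarith)
  have hR0 : 0 < R := Real.sqrt_pos.2 (by linarith)
  have h0 : (0 : E d) ∈ centred S x := hin (Metric.mem_closedBall_self hr.le)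
  have hsame : ∀ y ∈ S, y.1 = x.1 → x.2 ≤ y.2 := by
    intro y hy hyx
    have := mem_centred.1 h0 y hy
    rw [hyx] at this
    simpa using this
  have hb0 : ∀ y ∈ S, 0 ≤ (‖y.1 - x.1‖ ^ 2 + y.2 - x.2) / 2 := by
    intro y hy
    have := le_iff_inner.1 (mem_centred.1 h0 y hy)
    simpa using this
  have hfin2 : {y ∈ S | ε + (max (‖y.1 - x.1‖ - R) 0) ^ 2 ≤ -y.2 ∧ y.1 ≠ x.1}.Finite := by
    refine hfin.subset ?_
    rintro y ⟨h1, h2, h3⟩
    exact ⟨h1, h2⟩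
  set T := hfin2.toFinset with hT
  have hTmem : ∀ y, y ∈ T ↔ y ∈ S ∧ ε + (max (‖y.1 - x.1‖ - R) 0) ^ 2 ≤ -y.2 ∧ y.1 ≠ x.1 := by
    intro y
    rw [hT, Set.Finite.mem_toFinset]
    rfl
  -- geometric remark
  have hgeo : ∀ (w : E d) (y : E d × ℝ), ‖w‖ ≤ R → (max (‖y.1 - x.1‖ - R) 0) ^ 2 ≤ ‖w - (y.1 - x.1)‖ ^ 2 := by
    intro w y hw
    have h1 : ‖y.1 - x.1‖ - R ≤ ‖w - (y.1 - x.1)‖ := by
      have := norm_sub_norm_le (y.1 - x.1) w
      rw [norm_sub_rev (y.1 - x.1) w] at this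
      linarith
    have h2 : max (‖y.1 - x.1‖ - R) 0 ≤ ‖w - (y.1 - x.1)‖ := max_le h1 (norm_nonneg _)
    exact pow_le_pow_left₀ (le_max_right _ _) h2 2
  have hnetT : ∀ w : E d, ‖w‖ ≤ R → (∀ y ∈ T, ‖w‖ ^ 2 + x.2 ≤ ‖w - (y.1 - x.1)‖ ^ 2 + y.2) → 
      ‖w‖ ^ 2 + x.2 ≤ -ε := by
    intro w hw hwT
    obtain ⟨y, hy, hye⟩ := hnet w hw
    by_cases hyx : y.1 = x.1
    · have h1 := hsame y hy hyx
      rw [hyx, sub_self, sub_zero] at hye
      linarith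
    · have h2 : y ∈ T := by
        rw [hTmem]
        refine ⟨hy, ?_, hyx⟩
        have := hgeo w y hw
        linarith
      have := hwT y h2
      linarith
  have hball : ∀ w : E d, (∀ y ∈ T, ‖w‖ ^ 2 + x.2 ≤ ‖w - (y.1 - x.1)‖ ^ 2 + y.2) → ‖w‖ ≤ R := by
    intro w hw
    by_contra hcon
    push Not at hcon
    have hwpos : 0 < ‖w‖ := hR0.trans hcon
    set w' : E d := (R / ‖w‖) • w with hw'
    have hn : ‖w'‖ = R := by
      rw [hw', norm_smul, Real.norm_of_nonneg (by positivity)]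
      field_simp
    have h1 : ∀ y ∈ T, ‖w'‖ ^ 2 + x.2 ≤ ‖w' - (y.1 - x.1)‖ ^ 2 + y.2 := by
      intro y hy
      rw [le_iff_inner, hw', inner_smul_right]
      have h2 := le_iff_inner.1 (hw y hy)
      have h3 := hb0 y ((hTmem y).1 hy).1
      have ht : R / ‖w‖ ≤ 1 := (div_le_one hwpos).2 hcon.le
      have ht0 : 0 ≤ R / ‖w‖ := by positivity
      calc R / ‖w‖ * ⟪y.1 - x.1, w⟫_ℝ ≤ R / ‖w‖ * ((‖y.1 - x.1‖ ^ 2 + y.2 - x.2) / 2) := by gcongr
        _ ≤ 1 * ((‖y.1 - x.1‖ ^ 2 + y.2 - x.2) / 2) := by gcongr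
        _ = _ := one_mul _
    have h2 := hnetT w' hn.le h1
    rw [hn, hR2] at h2
    linarith
  have hQ : centred S x = {w | ∀ y ∈ T, ⟪y.1 - x.1, w⟫_ℝ ≤ (‖y.1 - x.1‖ ^ 2 + y.2 - x.2) / 2} := by
    ext w
    constructor
    · intro hw y hy
      exact le_iff_inner.1 (mem_centred.1 hw y ((hTmem y).1 hy).1)
    · intro hw
      have hw2 : ∀ y ∈ T, ‖w‖ ^ 2 + x.2 ≤ ‖w - (y.1 - x.1)‖ ^ 2 + y.2 := 
        fun y hy => le_iff_inner.2 (hw y hy)
      have hwR := hball w hw2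
      have hwε := hnetT w hwR hw2
      rw [mem_centred]
      intro y hy
      by_cases hyx : y.1 = x.1
      · have h1 := hsame y hy hyx
        rw [hyx, sub_self, sub_zero]
        linarith
      · by_cases hyT : ε + (max (‖y.1 - x.1‖ - R) 0) ^ 2 ≤ -y.2
        · exact hw2 y ((hTmem y).2 ⟨hy, hyT, hyx⟩)
        · push Not at hyT
          have := hgeo w y hwR
          linarith
  refine poly_main hd hQ ?_ hr hin ?_ hM
  · intro y hy
    exact sub_ne_zero.2 ((hTmem y).1 hy).2.2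
  · intro w hw
    rw [mem_closedBall_zero_iff]
    apply hball
    intro y hy
    exact mem_centred.1 hw y ((hTmem y).1 hy).1

/-- Every point has a point of the configuration of negative power nearby, uniformly on balls. -/
def Dense1 (S : Set (E d × ℝ)) : Prop :=
  ∀ M : ℕ, ∃ ε : ℝ, 0 < ε ∧ ∀ w : E d, ‖w‖ ≤ M → ∃ y ∈ S, ‖w - y.1‖ ^ 2 + y.2 ≤ -ε

/-- the regions of finite measure -/
def Reg (d : ℕ) (s R : ℝ) : Set (E d × ℝ) := {y | s + (max (‖y.1‖ - R) 0) ^ 2 < -y.2}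

lemma reg_mono {s s' R R' : ℝ} (hs : s' ≤ s) (hR : R ≤ R') : Reg d s R ⊆ Reg d s' R' := by
  intro y hy
  have hy' : s + (max (‖y.1‖ - R) 0) ^ 2 < -y.2 := hy
  have h1 : max (‖y.1‖ - R') 0 ≤ max (‖y.1‖ - R) 0 := max_le_max (by linarith) le_rfl
  have h2 : (max (‖y.1‖ - R') 0) ^ 2 ≤ (max (‖y.1‖ - R) 0) ^ 2 := pow_le_pow_left₀ (le_max_right _ _) h1 2
  show s' + (max (‖y.1‖ - R') 0) ^ 2 < -y.2
  linarith

/-- the cell of a high point, all other points of the configuration being low -/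
theorem big_cell (hd : 2 ≤ d) {ρ t s : ℝ} (hρ : 0 ≤ ρ) (hs : 0 < s) (hst : s < t)
    {X : ℕ → E d × ℝ} (hX1 : Dense1 (Set.range X))
    (hX2 : ∀ m : ℕ, {i | X i ∈ Reg d (1 / (m + 1)) (m + 1)}.Finite) {i : ℕ}
    (hi1 : ‖(X i).1‖ ≤ ρ) (hi2 : t < -(X i).2) (hi3 : -(X i).2 ≤ 2 * t)
    (hlow : ∀ j, j ≠ i → X j ∉ Reg d s (√(2 * t) + ρ)) {M : ℕ} (hM : 8 * (M : ℝ) ^ 2 * s < t) :
    (cell (Set.range X) (X i)).Nonempty ∧ 
      ∃ n : ℕ, M ≤ n ∧ PolyN n (centred (Set.range X) (X i)) := by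
  have ht : 0 < t := hs.trans hst
  set R := √(-(X i).2) with hR
  have hR2 : R ^ 2 = -(X i).2 := Real.sq_sqrt (by linarith)
  have hR0 : 0 < R := Real.sqrt_pos.2 (by linarith)
  set r := √(-(X i).2 - s) with hrdef
  have hr2 : r ^ 2 = -(X i).2 - s := Real.sq_sqrt (by linarith)
  have hr0 : 0 < r := Real.sqrt_pos.2 (by linarith)
  have hRt : R ≤ √(2 * t) := Real.sqrt_le_sqrt hi3
  have hrR : r ≤ R := Real.sqrt_le_sqrt (by linarith)
  have hin : Metric.closedBall 0 r ⊆ centred (Set.range X) (X i) := by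
    intro w hw
    rw [mem_closedBall_zero_iff] at hw
    rw [mem_centred]
    rintro _ ⟨j, rfl⟩
    by_cases hj : j = i
    · subst hj; simp
    · have h1 := hlow j hj
      have h2 : -(X j).2 ≤ s + (max (‖(X j).1‖ - (√(2 * t) + ρ)) 0) ^ 2 := not_lt.1 h1
      have h3 : max (‖(X j).1‖ - (√(2 * t) + ρ)) 0 ≤ ‖w - ((X j).1 - (X i).1)‖ := by
        apply max_le _ (norm_nonneg _)
        have h4 : ‖(X j).1‖ ≤ ‖w - ((X j).1 - (X i).1)‖ + ‖w‖ + ‖(X i).1‖ := by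
          have e : (X j).1 = w - (w - ((X j).1 - (X i).1)) + (X i).1 := by abel
          calc ‖(X j).1‖ = ‖w - (w - ((X j).1 - (X i).1)) + (X i).1‖ := by rw [← e]
            _ ≤ ‖w - (w - ((X j).1 - (X i).1))‖ + ‖(X i).1‖ := norm_add_le _ _
            _ ≤ ‖w‖ + ‖w - ((X j).1 - (X i).1)‖ + ‖(X i).1‖ := by gcongr; exact norm_sub_le _ _
            _ = _ := by ring
        linarith
      have h5 : (max (‖(X j).1‖ - (√(2 * t) + ρ)) 0) ^ 2 ≤ ‖w - ((X j).1 - (X i).1)‖ ^ 2 :=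
        pow_le_pow_left₀ (le_max_right _ _) h3 2
      have h6 : ‖w‖ ^ 2 ≤ r ^ 2 := pow_le_pow_left₀ (norm_nonneg _) hw 2
      linarith
  refine ⟨⟨(X i).1, ?_⟩, ?_⟩
  · have h0 : (0 : E d) ∈ centred (Set.range X) (X i) := hin (Metric.mem_closedBall_self hr0.le)
    have : (0 : E d) + (X i).1 ∈ cell (Set.range X) (X i) := h0
    rwa [zero_add] at this
  · obtain ⟨m, hm⟩ := exists_nat_ge (R + ρ)
    obtain ⟨ε, hε, hdense⟩ := hX1 m
    refine cell_good hd (Set.mem_range_self i) (by linarith) hr0 hε hin ?_ ?_ ?_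
    · intro w hw
      have h1 : ‖w + (X i).1‖ ≤ m := by
        have := norm_add_le w (X i).1
        linarith
      obtain ⟨y, hy, h2⟩ := hdense _ h1
      refine ⟨y, hy, ?_⟩
      have e : w - (y.1 - (X i).1) = w + (X i).1 - y.1 := by abel
      rw [e]
      exact h2
    · obtain ⟨m2, hm2⟩ := exists_nat_gt (max (R + ρ) (1 / ε))
      have h1 : 1 / ((m2 : ℝ) + 1) < ε := by
        have h2 : 1 / ε < m2 := (le_max_right _ _).trans_lt hm2
        rw [div_lt_comm₀ (by positivity) hε]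
        linarith
      refine ((hX2 m2).image X).subset ?_
      rintro y ⟨⟨j, rfl⟩, hj⟩
      refine ⟨j, ?_, rfl⟩
      show 1 / ((m2 : ℝ) + 1) + (max (‖(X j).1‖ - (m2 + 1)) 0) ^ 2 < -(X j).2
      have h2 : R + ρ < m2 := (le_max_left _ _).trans_lt hm2
      have h3 : max (‖(X j).1‖ - (m2 + 1)) 0 ≤ max (‖(X j).1 - (X i).1‖ - R) 0 := by
        apply max_le_max _ le_rfl
        have := norm_sub_norm_le (X j).1 (X i).1
        linarith
      have h4 : (max (‖(X j).1‖ - (m2 + 1)) 0) ^ 2 ≤ (max (‖(X j).1 - (X i).1‖ - R) 0) ^ 2 :=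
        pow_le_pow_left₀ (le_max_right _ _) h3 2
      linarith
    · -- 8 M^2 (R - r) < R
      have h1 : (R - r) * R ≤ s := by
        have : (R - r) * (R + r) = s := by ring_nf; rw [hR2, hr2]; ring
        nlinarith
      have h2 : 8 * (M : ℝ) ^ 2 * (R - r) * R < R * R := by
        calc 8 * (M : ℝ) ^ 2 * (R - r) * R = 8 * (M : ℝ) ^ 2 * ((R - r) * R) := by ring
          _ ≤ 8 * (M : ℝ) ^ 2 * s := by gcongr
          _ < t := hM
          _ < R ^ 2 := by rw [hR2]; exact hi2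
          _ = R * R := sq R
      exact lt_of_mul_lt_mul_right h2 hR0.le

end Pool.Agent.R970.Vor
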