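import Pool.Agent.R970.Vor.Grid

set_option autoImplicit false
set_option linter.unusedSectionVars false

/-! The intensity of nonempty cells is finite; polynomial lower bound for the facet number. -/

namespace Pool.Agent.R970.Vor

open Set Filter Topology MeasureTheory
open scoped ENNReal

variable {d : ℕ} {β c : ℝ} {Ω : Type*} [MeasurableSpace Ω] {P : Measure Ω} [IsProbabilityMeasure P]
  {X : ℕ → Ω → E d × ℝ}

lemma beta_pos (hβ : (d : ℝ) / 2 + 1 < β) : 1 < β := by
  have : (0 : ℝ) ≤ d := Nat.cast_nonneg d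
  linarith

/-- heights in the `k`-th shell -/
def Sh (B : Set (E d)) (k : ℕ) : Set (E d × ℝ) := Box B (Ioc ((1 / 4) ^ (k + 1)) ((1 / 4) ^ k))

lemma shell_net_disjoint (B : Set (E d)) (z : E d) (k : ℕ) : Disjoint (Sh B k) (Net z (k + 1)) := by
  rw [Set.disjoint_left]
  intro y h1 h2
  have h3 := (mem_box.1 h1).2.2
  have h4 := (mem_box.1 h2).2.1
  have hK := KK_ge (d := d)
  have hp : (0 : ℝ) < (1 / 4) ^ (k + 1) := by positivity
  have h5 : 4 * (1 / 4 : ℝ) ^ (k + 1) ≤ KK d * (1 / 4) ^ (k + 1) := by gcongr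
  rw [pow_succ] at h4 h5
  linarith

lemma shell_meas (hβ : (d : ℝ) / 2 + 1 < β) (hc : 0 < c) {B : Set (E d)} (hB : MeasurableSet B)
    (hBf : volume B ≠ ∞) (k : ℕ) : intensity d β c (Sh B k) ≤ 
      ENNReal.ofReal (3 * c * (volume B).toReal * (4 ^ (β - 1)) ^ (k + 1)) := by
  have hβ1 := beta_pos hβ
  refine (box_upper (by linarith) hc hB measurableSet_Ioc (a := (1 / 4) ^ (k + 1)) (by positivity) 
    (fun u hu => hu.1.le)).trans ?_
  rw [Real.volume_Ioc, ← ENNReal.ofReal_toReal hBf, ← ENNReal.ofReal_mul (by positivity),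
    ← ENNReal.ofReal_mul (by positivity)]
  apply ENNReal.ofReal_le_ofReal
  apply le_of_eq
  rw [ENNReal.ofReal_toReal hBf]
  have e1 : ((1 / 4 : ℝ) ^ (k + 1)) ^ (-β) * (1 / 4) ^ (k + 1) = (4 ^ (β - 1)) ^ (k + 1) := by
    have h4 : ((1 / 4 : ℝ) ^ (k + 1)) = 4 ^ (-((k + 1 : ℕ) : ℝ)) := by
      rw [one_div, inv_pow, Real.rpow_neg (by norm_num), Real.rpow_natCast]
    rw [h4, ← Real.rpow_mul (by norm_num), ← Real.rpow_add (by norm_num), 
      ← Real.rpow_natCast (4 ^ (β - 1)), ← Real.rpow_mul (by norm_num)]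
    congr 1
    ring
  rw [← e1]
  ring

/-- The expected number of nonempty cells with nucleus in `B` is finite. -/
lemma denom_finite (hβ : (d : ℝ) / 2 + 1 < β) (hc : 0 < c) (hX : IsPoisson P X (intensity d β c))
    {B : Set (E d)} (hB : MeasurableSet B) (hBb : Bornology.IsBounded B) :
    ECount P X B (fun _ => True) ≠ ∞ := by
  have hBf : volume B ≠ ∞ := hBb.measure_lt_top.ne
  obtain ⟨ρ, hρ⟩ := hBb.subset_closedBall 0
  obtain ⟨M, hM⟩ := exists_nat_ge (ρ + 1)
  obtain ⟨κ, hκ, hv⟩ := void_net hβ hc hX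
  obtain ⟨C, hC, hexp⟩ := grid_exp hβ hκ M
  -- the high points
  have hhigh : MeasurableSet (Box B (Ioi (1 : ℝ))) := meas_box hB measurableSet_Ioi
  have hhighfin : intensity d β c (Box B (Ioi (1 : ℝ))) ≠ ∞ := by
    refine ne_top_of_le_ne_top (reg_fin hβ hc (s := 1) (R := ρ) one_pos) (measure_mono ?_)
    intro y hy
    have h1 := mem_box.1 hy
    have h2 := hρ h1.1
    rw [mem_closedBall_zero_iff] at h2
    show (1 : ℝ) + (max (‖y.1‖ - ρ) 0) ^ 2 < -y.2
    rw [max_eq_right (by linarith)]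
    have h3 : (1 : ℝ) < -y.2 := h1.2
    linarith
  have hmain : ∀ i, P {ω | (X i ω).1 ∈ B ∧ (cell (Set.range fun j => X j ω) (X i ω)).Nonempty ∧ True} ≤
      P {ω | X i ω ∈ Box B (Ioi (1 : ℝ)) ∧ cnt X ∅ ω = 0} + 
      ∑' k : ℕ, ∑ z ∈ grid d M (k + 1), P {ω | X i ω ∈ Sh B k ∧ cnt X (Net z (k + 1)) ω = 0} := by
    intro i
    have hsub : {ω | (X i ω).1 ∈ B ∧ (cell (Set.range fun j => X j ω) (X i ω)).Nonempty ∧ True} ≤ᵐ[P]
        ({ω | X i ω ∈ Box B (Ioi (1 : ℝ)) ∧ cnt X ∅ ω = 0} ∪ 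
        ⋃ k : ℕ, ⋃ z ∈ grid d M (k + 1), {ω | X i ω ∈ Sh B k ∧ cnt X (Net z (k + 1)) ω = 0} : Set Ω) := by
      filter_upwards [dense_ae hβ hc hX, neg_ae hX] with ω hω hneg hmem
      obtain ⟨hi, ⟨w, hw⟩, -⟩ : (X i ω).1 ∈ B ∧ (cell (Set.range fun j => X j ω) (X i ω)).Nonempty ∧ True := hmem
      by_cases h1 : 1 < -(X i ω).2
      · left
        exact ⟨⟨hi, h1⟩, by rw [cnt_eq_zero]; simp⟩
      · right
        push Not at h1
        obtain ⟨k, hk1, hk2⟩ := exists_nat_pow_near_of_lt_one (x := -(X i ω).2) (by linarith [hneg i]) h1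
          (by norm_num : (0 : ℝ) < 1 / 4) (by norm_num)
        -- w is close to the nucleus
        have hwn : ‖w‖ ≤ M := by
          obtain ⟨m, hm⟩ := exists_nat_ge ‖w‖
          obtain ⟨ε, hε, hd1⟩ := hω m
          obtain ⟨y, hy, hye⟩ := hd1 w hm
          have h2 := hw y hy
          have h3 : ‖w - (X i ω).1‖ ^ 2 < 1 := by linarith
          have h4 : ‖w - (X i ω).1‖ < 1 := by
            by_contra hcon
            push Not at hcon
            nlinarith
          have h5 := hρ hi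
          rw [mem_closedBall_zero_iff] at h5
          have h6 : ‖w‖ ≤ ‖w - (X i ω).1‖ + ‖(X i ω).1‖ := by
            have e : w = (w - (X i ω).1) + (X i ω).1 := by abel
            calc ‖w‖ = ‖(w - (X i ω).1) + (X i ω).1‖ := by rw [← e]
              _ ≤ _ := norm_add_le _ _
          linarith
        obtain ⟨z, hz, hwz⟩ := grid_near (k + 1) hwn
        simp only [mem_iUnion]
        refine ⟨k, z, hz, ⟨hi, hk1, hk2⟩, ?_⟩
        rw [cnt_eq_zero]
        intro j hj
        have h2 := net_power hwz hj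
        have h3 := hw (X j ω) ⟨j, rfl⟩
        -- strictness
        obtain ⟨ha, hb⟩ := mem_box.1 hj
        have h4 : ‖w - (X j ω).1‖ < (1 + √d) * (1 / 2) ^ (k + 1) := by
          have e : w - (X j ω).1 = (w - z) + (z - (X j ω).1) := by abel
          rw [e]
          refine (norm_add_le _ _).trans_lt ?_
          rw [Metric.mem_ball, dist_eq_norm, norm_sub_rev] at ha
          linarith
        have h5 : ‖w - (X j ω).1‖ ^ 2 ≤ (1 + √d) ^ 2 * (1 / 4) ^ (k + 1) := by
          calc ‖w - (X j ω).1‖ ^ 2 ≤ ((1 + √d) * (1 / 2) ^ (k + 1)) ^ 2 := 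
                pow_le_pow_left₀ (norm_nonneg _) h4.le 2
            _ = (1 + √d) ^ 2 * (1 / 4) ^ (k + 1) := by
                rw [mul_pow, ← pow_mul, mul_comm (k + 1) 2, pow_mul]; norm_num
        have h6 := hb.1
        unfold KK at h6
        have h7 : 0 ≤ ‖w - (X i ω).1‖ ^ 2 := sq_nonneg _
        have h8 : (1 / 4 : ℝ) ^ k = 4 * (1 / 4) ^ (k + 1) := by rw [pow_succ]; ring
        rw [h8] at hk2
        linarith
    refine (measure_mono_ae hsub).trans ((measure_union_le _ _).trans ?_)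
    gcongr
    refine (measure_iUnion_le _).trans ?_
    exact ENNReal.tsum_le_tsum fun k => measure_biUnion_finset_le _ _
  have hsum : ECount P X B (fun _ => True) ≤ 
      (∑' i, P {ω | X i ω ∈ Box B (Ioi (1 : ℝ)) ∧ cnt X ∅ ω = 0}) + 
      ∑' k : ℕ, ∑ z ∈ grid d M (k + 1), ∑' i, P {ω | X i ω ∈ Sh B k ∧ cnt X (Net z (k + 1)) ω = 0} := by
    unfold ECount
    refine (ENNReal.tsum_le_tsum hmain).trans ?_
    rw [ENNReal.tsum_add]
    refine add_le_add le_rfl ?_
    rw [ENNReal.tsum_comm]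
    refine ENNReal.tsum_le_tsum fun k => ?_
    rw [Summable.tsum_finsetSum (fun _ _ => ENNReal.summable)]
  refine ne_top_of_le_ne_top ?_ hsum
  apply ENNReal.add_ne_top.2
  constructor
  · refine ne_top_of_le_ne_top ?_ (hX.sum_le hhigh MeasurableSet.empty (by simp) hhighfin)
    exact ENNReal.mul_ne_top hhighfin (measure_ne_top P _)
  · have hterm : ∀ k : ℕ, ∑ z ∈ grid d M (k + 1), ∑' i, 
        P {ω | X i ω ∈ Sh B k ∧ cnt X (Net z (k + 1)) ω = 0} ≤ 
        ENNReal.ofReal (3 * c * (volume B).toReal * C * (1 / 2) ^ (k + 1)) := by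
      intro k
      have hfin : intensity d β c (Sh B k) ≠ ∞ := 
        ne_top_of_le_ne_top ENNReal.ofReal_ne_top (shell_meas hβ hc hB hBf k)
      have h1 : ∀ z ∈ grid d M (k + 1), ∑' i, 
          P {ω | X i ω ∈ Sh B k ∧ cnt X (Net z (k + 1)) ω = 0} ≤ 
          ENNReal.ofReal ((3 * c * (volume B).toReal * (4 ^ (β - 1)) ^ (k + 1)) * 
            Real.exp (-(κ * bb d β ^ (k + 1)))) := by
        intro z _
        refine (hX.sum_le (meas_box hB measurableSet_Ioc) (meas_net z (k + 1)) 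
          (shell_net_disjoint B z k) hfin).trans ?_
        rw [ENNReal.ofReal_mul (by positivity)]
        exact mul_le_mul' (shell_meas hβ hc hB hBf k) (hv z (k + 1))
      refine (Finset.sum_le_sum h1).trans ?_
      apply ofReal_sum_grid M (k + 1) (by positivity)
      have h2 := hexp (k + 1)
      have h3 : 0 ≤ 3 * c * (volume B).toReal := by positivity
      calc _ = 3 * c * (volume B).toReal * ((((2 * M * 2 ^ (k + 1) + 1) ^ d : ℕ) : ℝ) * 
              (4 ^ (β - 1)) ^ (k + 1) * Real.exp (-(κ * bb d β ^ (k + 1)))) := by ring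
        _ ≤ 3 * c * (volume B).toReal * (C * (1 / 2) ^ (k + 1)) := by gcongr
        _ = _ := by ring
    refine ne_top_of_le_ne_top ?_ (ENNReal.tsum_le_tsum hterm)
    rw [← ENNReal.ofReal_tsum_of_nonneg (fun k => by positivity)]
    · exact ENNReal.ofReal_ne_top
    · apply Summable.mul_left
      have : Summable fun k : ℕ => (1 / 2 : ℝ) ^ k := summable_geometric_of_lt_one (by norm_num) (by norm_num)
      exact (summable_nat_add_iff 1).2 this

/-- Lower bound for the expected number of cells with many facets. -/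
lemma num_lower (hd : 2 ≤ d) (hβ : (d : ℝ) / 2 + 1 < β) (hc : 0 < c) 
    (hX : IsPoisson P X (intensity d β c)) {B : Set (E d)} (hB : MeasurableSet B) 
    (hBb : Bornology.IsBounded B) (hB0 : 0 < volume B) : ∃ c1 : ℝ, 0 < c1 ∧ 
      ∀ (t : ℝ) (M : ℕ), 1 < t → 8 * (M : ℝ) ^ 2 * t ^ ((d : ℝ) / (2 * (β - 1))) < t → 
      ENNReal.ofReal (c1 * t ^ (1 - β)) ≤ ECount P X B fun Q => ∃ n : ℕ, M ≤ n ∧ PolyN n Q := by
  have hβ1 := beta_pos hβ
  have hβ0 : 0 < β := by linarith
  have hBf : volume B ≠ ∞ := hBb.measure_lt_top.ne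
  obtain ⟨ρ', hρ'⟩ := hBb.subset_closedBall 0
  set ρ := max ρ' 0 with hρdef
  have hρ0 : 0 ≤ ρ := le_max_right _ _
  have hρ : ∀ v ∈ B, ‖v‖ ≤ ρ := by
    intro v hv
    have := hρ' hv
    rw [mem_closedBall_zero_iff] at this
    exact this.trans (le_max_left _ _)
  set VB := (volume B).toReal with hVB
  have hVB0 : 0 < VB := ENNReal.toReal_pos hB0.ne' hBf
  have hVBe : volume B = ENNReal.ofReal VB := (ENNReal.ofReal_toReal hBf).symm
  obtain ⟨C, hC, hreg⟩ := reg_upper (d := d) hβ hc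
  set σ := (d : ℝ) / (2 * (β - 1)) with hσ
  have hσ0 : 0 ≤ σ := by apply div_nonneg (Nat.cast_nonneg d); linarith
  have hσ1 : σ < 1 := by rw [hσ, div_lt_one (by linarith)]; linarith
  refine ⟨Real.exp (-(c * VB)) * (c * 2 ^ (-β) * VB) * Real.exp (-(C * (2 + ρ) ^ d)), by positivity, ?_⟩
  intro t M ht hM
  have ht0 : 0 < t := by linarith
  set s := t ^ σ with hs
  have hs0 : 0 < s := by positivity
  have hst : s < t := by
    calc s = t ^ σ := rfl
      _ < t ^ (1 : ℝ) := Real.rpow_lt_rpow_of_exponent_lt ht hσ1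
      _ = t := Real.rpow_one t
  -- the two sets
  set S1 := Box B (Ioc t (2 * t)) with hS1
  set A := Reg d s (√(2 * t) + ρ) \ S1 with hA
  have hS1m : MeasurableSet S1 := meas_box hB measurableSet_Ioc
  have hAm : MeasurableSet A := (meas_reg _ _).diff hS1m
  -- measures
  have hS1low : ENNReal.ofReal (c * 2 ^ (-β) * VB * t ^ (1 - β)) ≤ intensity d β c S1 := by
    refine le_trans ?_ (box_lower hβ0 hc hB measurableSet_Ioc (b := 2 * t) ?_)
    · rw [Real.volume_Ioc, hVBe, ← ENNReal.ofReal_mul (by positivity), ← ENNReal.ofReal_mul (by positivity)]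
      apply ENNReal.ofReal_le_ofReal
      apply le_of_eq
      rw [Real.mul_rpow (by norm_num) ht0.le, show (1 : ℝ) - β = -β + 1 by ring, 
        Real.rpow_add ht0, Real.rpow_one]
      ring
    · intro u hu; exact ⟨ht0.trans hu.1, hu.2⟩
  have hS1up : intensity d β c S1 ≤ ENNReal.ofReal (c * VB) := by
    refine (box_upper hβ0 hc hB measurableSet_Ioc ht0 (fun u hu => hu.1.le)).trans ?_
    rw [Real.volume_Ioc, hVBe, ← ENNReal.ofReal_mul (by positivity), ← ENNReal.ofReal_mul (by positivity)]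
    apply ENNReal.ofReal_le_ofReal
    have h1 : t ^ (-β) * t ≤ 1 := by
      nth_rewrite 2 [← Real.rpow_one t]
      rw [← Real.rpow_add ht0]
      exact Real.rpow_le_one_of_one_le_of_nonpos ht.le (by linarith)
    calc c * t ^ (-β) * (VB * (2 * t - t)) = c * VB * (t ^ (-β) * t) := by ring
      _ ≤ c * VB * 1 := by gcongr
      _ = c * VB := mul_one _
  have hS1fin : intensity d β c S1 ≠ ∞ := ne_top_of_le_ne_top ENNReal.ofReal_ne_top hS1up
  have hAup : intensity d β c A ≤ ENNReal.ofReal (C * (2 + ρ) ^ d) := by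
    refine (measure_mono sdiff_subset).trans ((hreg s _ hs0 (by positivity) ?_).trans ?_)
    · have h1 : (√(2 * t)) ^ 2 = 2 * t := Real.sq_sqrt (by linarith)
      have h2 : 0 ≤ √(2 * t) := Real.sqrt_nonneg _
      nlinarith
    · apply ENNReal.ofReal_le_ofReal
      have h1 : √(2 * t) + ρ ≤ (2 + ρ) * √t := by
        have h2 : √(2 * t) ≤ 2 * √t := by
          rw [Real.sqrt_mul (by norm_num)]
          have h3 : √2 ≤ 2 := by rw [Real.sqrt_le_left (by norm_num)]; norm_num
          gcongr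
        have h3 : 1 ≤ √t := by rw [Real.one_le_sqrt]; exact ht.le
        nlinarith
      have h2 : (√(2 * t) + ρ) ^ d ≤ (2 + ρ) ^ d * √t ^ d := by
        rw [← mul_pow]
        exact pow_le_pow_left₀ (by positivity) h1 d
      have h3 : s ^ (1 - β) * √t ^ d = 1 := by
        rw [hs, ← Real.rpow_mul ht0.le, Real.sqrt_eq_rpow, ← Real.rpow_natCast, 
          ← Real.rpow_mul ht0.le, ← Real.rpow_add ht0]
        have : σ * (1 - β) + 1 / 2 * (d : ℝ) = 0 := by
          rw [hσ]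
          have : β - 1 ≠ 0 := by linarith
          field_simp
          ring
        rw [this, Real.rpow_zero]
      calc C * (s ^ (1 - β) * (√(2 * t) + ρ) ^ d) ≤ C * (s ^ (1 - β) * ((2 + ρ) ^ d * √t ^ d)) := by gcongr
        _ = C * (2 + ρ) ^ d * (s ^ (1 - β) * √t ^ d) := by ring
        _ = _ := by rw [h3, mul_one]
  have hAfin : intensity d β c A ≠ ∞ := ne_top_of_le_ne_top ENNReal.ofReal_ne_top hAup
  -- probability of the event
  have hG : ENNReal.ofReal (Real.exp (-(c * VB)) * (c * 2 ^ (-β) * VB) * 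
      Real.exp (-(C * (2 + ρ) ^ d)) * t ^ (1 - β)) ≤ P {ω | cnt X S1 ω = 1 ∧ cnt X A ω = 0} := by
    rw [hX.inter hS1m hAm (by rw [hA]; exact disjoint_sdiff_right) 1 0, hX.one hS1m hS1fin, hX.zero hAm hAfin,
      ← ENNReal.ofReal_mul (by positivity)]
    apply ENNReal.ofReal_le_ofReal
    have h1 : (intensity d β c S1).toReal ≤ c * VB := ENNReal.toReal_le_of_le_ofReal (by positivity) hS1up
    have h2 : c * 2 ^ (-β) * VB * t ^ (1 - β) ≤ (intensity d β c S1).toReal := 
      (ENNReal.ofReal_le_iff_le_toReal hS1fin).1 hS1low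
    have h3 : (intensity d β c A).toReal ≤ C * (2 + ρ) ^ d := 
      ENNReal.toReal_le_of_le_ofReal (by positivity) hAup
    calc _ = (Real.exp (-(c * VB)) * (c * 2 ^ (-β) * VB * t ^ (1 - β))) * 
          Real.exp (-(C * (2 + ρ) ^ d)) := by ring
      _ ≤ _ := by gcongr
  refine hG.trans ?_
  have hsub : {ω | cnt X S1 ω = 1 ∧ cnt X A ω = 0} ≤ᵐ[P] 
      (⋃ i, {ω | (X i ω).1 ∈ B ∧ (cell (Set.range fun j => X j ω) (X i ω)).Nonempty ∧
        ∃ n : ℕ, M ≤ n ∧ PolyN n (centred (Set.range fun j => X j ω) (X i ω))} : Set Ω) := by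
    filter_upwards [dense_ae hβ hc hX, finite_ae hβ hc hX] with ω hω1 hω2 hmem
    obtain ⟨h1, h0⟩ : cnt X S1 ω = 1 ∧ cnt X A ω = 0 := hmem
    obtain ⟨i, hi⟩ := Set.encard_eq_one.1 h1
    have hiS : X i ω ∈ S1 := by
      have : i ∈ {i | X i ω ∈ S1} := by rw [hi]; rfl
      exact this
    obtain ⟨hiB, hit, hit2⟩ := mem_box.1 hiS
    have hlow : ∀ j, j ≠ i → X j ω ∉ Reg d s (√(2 * t) + ρ) := by
      intro j hj hreg
      have h2 := cnt_eq_zero.1 h0 j
      apply h2
      refine ⟨hreg, fun h3 => hj ?_⟩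
      have : j ∈ {i | X i ω ∈ S1} := h3
      rw [hi] at this
      exact this
    have h2 := big_cell hd hρ0 hs0 hst hω1 hω2 (hρ _ hiB) hit hit2 hlow (M := M) hM
    show ω ∈ (⋃ i, {ω | (X i ω).1 ∈ B ∧ (cell (Set.range fun j => X j ω) (X i ω)).Nonempty ∧
        ∃ n : ℕ, M ≤ n ∧ PolyN n (centred (Set.range fun j => X j ω) (X i ω))} : Set Ω)
    rw [mem_iUnion]
    exact ⟨i, hiB, h2.1, h2.2⟩
  refine (measure_mono_ae hsub).trans (measure_iUnion_le _)

end Pool.Agent.R970.Vor
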