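import Pool.Agent.R970.Vor.Defs

set_option autoImplicit false
set_option linter.unusedSectionVars false

/-! Elementary facts on Poisson processes given by an enumeration. -/

namespace Pool.Agent.R970.Vor

open MeasureTheory ProbabilityTheory Set Filter Topology
open scoped ENNReal NNReal

variable {Ω : Type*} [MeasurableSpace Ω] {S : Type*} [MeasurableSpace S] {P : Measure Ω}
  {X : ℕ → Ω → S} {μ : Measure S}

lemma cnt_eq_tsum (A : Set S) (ω : Ω) :
    ((cnt X A ω : ℕ∞) : ℝ≥0∞) = ∑' i, {ω | X i ω ∈ A}.indicator 1 ω := by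
  unfold cnt
  rw [← ENNReal.tsum_set_one]
  rw [tsum_subtype {i | X i ω ∈ A} (fun _ => (1 : ℝ≥0∞))]
  refine tsum_congr fun i => ?_
  by_cases h : X i ω ∈ A
  · rw [Set.indicator_of_mem (by exact h), Set.indicator_of_mem (by exact h)]; rfl
  · rw [Set.indicator_of_notMem (by exact h), Set.indicator_of_notMem (by exact h)]

lemma cnt_eq_zero {A : Set S} {ω : Ω} : cnt X A ω = 0 ↔ ∀ i, X i ω ∉ A := by
  unfold cnt
  rw [Set.encard_eq_zero, Set.eq_empty_iff_forall_notMem]
  rfl

lemma IsPoisson.meas_mem (hX : IsPoisson P X μ) {A : Set S} (hA : MeasurableSet A) (i : ℕ) :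
    MeasurableSet {ω | X i ω ∈ A} := hX.meas i hA

lemma IsPoisson.meas_cnt (hX : IsPoisson P X μ) {A : Set S} (hA : MeasurableSet A) :
    Measurable (cnt X A) := by
  have h : Measurable fun ω => ((cnt X A ω : ℕ∞) : ℝ≥0∞) := by
    simp only [cnt_eq_tsum]
    refine Measurable.tsum fun i => ?_
    exact measurable_one.indicator (hX.meas_mem hA i)
  refine measurable_to_countable' fun n => ?_
  have : cnt X A ⁻¹' {n} = (fun ω => ((cnt X A ω : ℕ∞) : ℝ≥0∞)) ⁻¹' {(n : ℝ≥0∞)} := by
    ext ω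
    simp
  rw [this]
  exact h (measurableSet_singleton _)

lemma IsPoisson.meas_cnt_eq (hX : IsPoisson P X μ) {A : Set S} (hA : MeasurableSet A) (k : ℕ∞) :
    MeasurableSet {ω | cnt X A ω = k} := hX.meas_cnt hA (measurableSet_singleton k)

lemma IsPoisson.zero (hX : IsPoisson P X μ) {A : Set S} (hA : MeasurableSet A) (h : μ A ≠ ∞) :
    P {ω | cnt X A ω = 0} = ENNReal.ofReal (Real.exp (-(μ A).toReal)) := by
  have := hX.law A hA h 0
  rw [poissonMeasure_singleton] at this
  simpa [ENNReal.coe_toNNReal_eq_toReal] using this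

lemma IsPoisson.one (hX : IsPoisson P X μ) {A : Set S} (hA : MeasurableSet A) (h : μ A ≠ ∞) :
    P {ω | cnt X A ω = 1} = ENNReal.ofReal (Real.exp (-(μ A).toReal) * (μ A).toReal) := by
  have := hX.law A hA h 1
  rw [poissonMeasure_singleton] at this
  simpa [ENNReal.coe_toNNReal_eq_toReal] using this

/-- finitely many points in a set of finite measure -/
lemma IsPoisson.finite [IsProbabilityMeasure P] (hX : IsPoisson P X μ) {A : Set S}
    (hA : MeasurableSet A) (h : μ A ≠ ∞) : ∀ᵐ ω ∂P, {i | X i ω ∈ A}.Finite := by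
  have h1 : P (⋃ k : ℕ, {ω | cnt X A ω = k}) = 1 := by
    rw [measure_iUnion]
    · simp only [hX.law A hA h]
      have : ∑' k : ℕ, poissonMeasure (μ A).toNNReal {k} = poissonMeasure (μ A).toNNReal univ := by
        rw [← measure_iUnion]
        · congr 1
          ext x
          simp
        · intro i j hij
          simpa using hij
        · intro i; exact measurableSet_singleton i
      rw [this]
      exact measure_univ
    · intro i j hij
      refine Set.disjoint_left.2 fun ω h1 h2 => hij ?_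
      have h1' : cnt X A ω = i := h1
      have h2' : cnt X A ω = j := h2
      rw [h1'] at h2'
      exact_mod_cast h2'
    · intro k
      exact hX.meas_cnt_eq hA k
  have h2 : ∀ᵐ ω ∂P, ω ∈ ⋃ k : ℕ, {ω | cnt X A ω = k} := by
    rw [← prob_compl_eq_zero_iff] at h1
    · exact h1
    · exact MeasurableSet.iUnion fun k => hX.meas_cnt_eq hA k
  filter_upwards [h2] with ω hω
  rw [Set.mem_iUnion] at hω
  obtain ⟨k, hk⟩ := hω
  have hk' : cnt X A ω = k := hk
  rw [← Set.encard_lt_top_iff]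
  have : {i | X i ω ∈ A}.encard = k := hk'
  rw [this]
  exact ENat.natCast_lt_top k

/-- independence of the counts for two disjoint sets -/
lemma IsPoisson.indepFun (hX : IsPoisson P X μ) {A B : Set S} (hA : MeasurableSet A)
    (hB : MeasurableSet B) (hAB : Disjoint A B) : IndepFun (cnt X A) (cnt X B) P := by
  have := hX.indep 2 ![A, B] (by intro i; fin_cases i <;> simp [hA, hB]) (by
    intro i j hij
    fin_cases i <;> fin_cases j <;> simp_all [Function.onFun, hAB.symm])
  have h2 := this.indepFun (i := 0) (j := 1) (by simp)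
  simpa using h2

lemma IsPoisson.inter (hX : IsPoisson P X μ) {A B : Set S} (hA : MeasurableSet A)
    (hB : MeasurableSet B) (hAB : Disjoint A B) (a b : ℕ∞) :
    P {ω | cnt X A ω = a ∧ cnt X B ω = b} = P {ω | cnt X A ω = a} * P {ω | cnt X B ω = b} := by
  have := (hX.indepFun hA hB hAB).measure_inter_preimage_eq_mul {a} {b}
    (measurableSet_singleton _) (measurableSet_singleton _)
  exact this

/-- the mean number of points, upper bound -/
lemma IsPoisson.mean_le [IsProbabilityMeasure P] (hX : IsPoisson P X μ) {A : Set S}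
    (hA : MeasurableSet A) (h : μ A ≠ ∞) : ∫⁻ ω, ((cnt X A ω : ℕ∞) : ℝ≥0∞) ∂P ≤ μ A := by
  have h0 : P {ω | cnt X A ω = ⊤} = 0 := by
    have := hX.finite hA h
    refine measure_mono_null ?_ this
    intro ω hω h2
    have h3 : cnt X A ω = ⊤ := hω
    have h4 : {i | X i ω ∈ A}.encard < ⊤ := Set.encard_lt_top_iff.2 h2
    exact h4.ne h3
  have h1 : ∫⁻ ω, ((cnt X A ω : ℕ∞) : ℝ≥0∞) ∂P = ∫⁻ x, ((x : ℕ∞) : ℝ≥0∞) ∂(P.map (cnt X A)) := by
    rw [lintegral_map (measurable_of_countable _) (hX.meas_cnt hA)]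
  rw [h1, lintegral_countable']
  have h2 : ∀ x : ℕ∞, P.map (cnt X A) {x} = P {ω | cnt X A ω = x} := by
    intro x
    rw [Measure.map_apply (hX.meas_cnt hA) (measurableSet_singleton _)]
    rfl
  have h3 : ∑' x : ℕ∞, ((x : ℕ∞) : ℝ≥0∞) * P.map (cnt X A) {x} =
      ∑' k : ℕ, (k : ℝ≥0∞) * P {ω | cnt X A ω = k} := by
    have e1 : ∑' x : ℕ∞, ((x : ℕ∞) : ℝ≥0∞) * P.map (cnt X A) {x} =
        ∑' x : ℕ∞, ((x : ℕ∞) : ℝ≥0∞) * P {ω | cnt X A ω = x} := by
      refine tsum_congr fun x => by rw [h2]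
    rw [e1]
    symm
    have hinj : Function.Injective (fun k : ℕ => (k : ℕ∞)) := Nat.cast_injective
    have := hinj.tsum_eq (f := fun x : ℕ∞ => ((x : ℕ∞) : ℝ≥0∞) * P {ω | cnt X A ω = x}) (by
      intro x hx
      by_contra hcon
      have : x = ⊤ := by
        by_contra hx'
        obtain ⟨k, hk⟩ := ENat.ne_top_iff_exists.1 hx'
        exact hcon ⟨k, hk⟩
      subst this
      simp [h0] at hx)
    rw [← this]
    simp
  rw [h3]
  have h4 : ∀ k : ℕ, (k : ℝ≥0∞) * P {ω | cnt X A ω = k} = 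
      ENNReal.ofReal ((k : ℝ) * (Real.exp (-(μ A).toReal) * (μ A).toReal ^ k / k.factorial)) := by
    intro k
    rw [hX.law A hA h k, poissonMeasure_singleton, ENNReal.ofReal_mul (Nat.cast_nonneg k)]
    simp [ENNReal.coe_toNNReal_eq_toReal]
  simp only [h4]
  rw [tsum_eq_zero_add' ENNReal.summable]
  simp only [CharP.cast_eq_zero, zero_mul, ENNReal.ofReal_zero, zero_add]
  have h5 : ∀ k : ℕ, (((k + 1 : ℕ) : ℝ) * (Real.exp (-(μ A).toReal) * (μ A).toReal ^ (k+1) / (k+1).factorial)) =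
      (μ A).toReal * (Real.exp (-(μ A).toReal) * (μ A).toReal ^ k / k.factorial) := by
    intro k
    rw [Nat.factorial_succ]
    push_cast
    have : ((k : ℝ) + 1) ≠ 0 := by positivity
    have : (k.factorial : ℝ) ≠ 0 := by positivity
    field_simp
    try ring
  simp only [h5]
  have h6 := hasSum_one_poissonMeasure (μ A).toNNReal
  have h7 : HasSum (fun k : ℕ => (μ A).toReal * (Real.exp (-(μ A).toReal) * (μ A).toReal ^ k / k.factorial))
      ((μ A).toReal * 1) := h6.mul_left _
  rw [← ENNReal.ofReal_tsum_of_nonneg (fun k => by positivity) h7.summable, h7.tsum_eq, mul_one,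
    ENNReal.ofReal_toReal h]

/-- the expected number of points in `A` on the event that `B` is empty -/
lemma IsPoisson.sum_le [IsProbabilityMeasure P] (hX : IsPoisson P X μ) {A B : Set S}
    (hA : MeasurableSet A) (hB : MeasurableSet B) (hAB : Disjoint A B) (h : μ A ≠ ∞) :
    ∑' i, P {ω | X i ω ∈ A ∧ cnt X B ω = 0} ≤ μ A * P {ω | cnt X B ω = 0} := by
  have h1 : ∀ i, P {ω | X i ω ∈ A ∧ cnt X B ω = 0} =
      ∫⁻ ω, {ω | X i ω ∈ A}.indicator 1 ω * {ω | cnt X B ω = 0}.indicator 1 ω ∂P := by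
    intro i
    have e0 : {ω | X i ω ∈ A ∧ cnt X B ω = 0} = {ω | X i ω ∈ A} ∩ {ω | cnt X B ω = 0} := rfl
    rw [e0, ← lintegral_indicator_one ((hX.meas_mem hA i).inter (hX.meas_cnt_eq hB 0))]
    refine lintegral_congr fun ω => ?_
    rw [Set.inter_indicator_one]
    rfl
  simp only [h1]
  rw [← lintegral_tsum]
  · simp only [ENNReal.tsum_mul_right, ← cnt_eq_tsum]
    have h2 : IndepFun (fun ω => ((cnt X A ω : ℕ∞) : ℝ≥0∞)) 
        (fun ω => {ω | cnt X B ω = 0}.indicator (1 : Ω → ℝ≥0∞) ω) P := by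
      have := (hX.indepFun hA hB hAB).comp (φ := fun x : ℕ∞ => (x : ℝ≥0∞)) 
        (ψ := fun x : ℕ∞ => ({0} : Set ℕ∞).indicator (fun _ => (1 : ℝ≥0∞)) x) 
        (measurable_of_countable _) (measurable_of_countable _)
      exact this
    have h3 := lintegral_mul_eq_lintegral_mul_lintegral_of_indepFun
      (f := fun ω => ((cnt X A ω : ℕ∞) : ℝ≥0∞)) (g := fun ω => {ω | cnt X B ω = 0}.indicator 1 ω)
      ((measurable_of_countable (fun x : ℕ∞ => (x : ℝ≥0∞))).comp (hX.meas_cnt hA))
      (measurable_one.indicator (hX.meas_cnt_eq hB 0)) h2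
    have h4 : ∫⁻ ω, {ω | cnt X B ω = 0}.indicator 1 ω ∂P = P {ω | cnt X B ω = 0} :=
      lintegral_indicator_one (hX.meas_cnt_eq hB 0)
    rw [h4] at h3
    refine (le_of_eq h3).trans ?_
    gcongr
    exact hX.mean_le hA h
  · intro i
    exact ((measurable_one.indicator (hX.meas_mem hA i)).mul 
      (measurable_one.indicator (hX.meas_cnt_eq hB 0))).aemeasurable

end Pool.Agent.R970.Vor
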