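import Pool.Agent.R970.Vor.Meas
import Pool.Agent.R970.Vor.Poi

set_option autoImplicit false
set_option linter.unusedSectionVars false

/-! Nets and almost sure properties of the process. -/

namespace Pool.Agent.R970.Vor

open Set Filter Topology MeasureTheory
open scoped ENNReal

variable {d : ℕ} {β c : ℝ}

/-- grid points -/
noncomputable def gpt (d M k : ℕ) (z : Fin d → Fin (2 * M * 2 ^ k + 1)) : E d :=
  WithLp.toLp 2 fun i => -(M : ℝ) + ((z i : ℕ) : ℝ) * (1 / 2) ^ k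

/-- the grid -/
noncomputable def grid (d M k : ℕ) : Finset (E d) := by
  classical
  exact Finset.univ.image (gpt d M k)

lemma card_grid (M k : ℕ) : (grid d M k).card ≤ (2 * M * 2 ^ k + 1) ^ d := by
  classical
  unfold grid
  refine Finset.card_image_le.trans ?_
  simp

lemma grid_near {M : ℕ} (k : ℕ) {w : E d} (hw : ‖w‖ ≤ M) :
    ∃ z ∈ grid d M k, ‖w - z‖ ≤ √d * (1 / 2) ^ k := by
  classical
  have hwi : ∀ i, |w i| ≤ M := by
    intro i
    have := PiLp.norm_apply_le w i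
    rw [Real.norm_eq_abs] at this
    exact this.trans hw
  have hz : ∀ i, ⌊(w i + M) * 2 ^ k⌋₊ < 2 * M * 2 ^ k + 1 := by
    intro i
    rw [Nat.lt_succ_iff]
    apply Nat.floor_le_of_le
    push_cast
    have := (abs_le.1 (hwi i)).2
    have h2 : w i + M ≤ 2 * M := by linarith
    gcongr
  refine ⟨gpt d M k fun i => ⟨⌊(w i + M) * 2 ^ k⌋₊, hz i⟩, ?_, ?_⟩
  · unfold grid
    exact Finset.mem_image_of_mem _ (Finset.mem_univ _)
  · rw [EuclideanSpace.norm_eq]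
    have h1 : ∀ i, ‖(w - gpt d M k fun i => ⟨⌊(w i + M) * 2 ^ k⌋₊, hz i⟩) i‖ ^ 2 ≤ ((1 / 2) ^ k) ^ 2 := by
      intro i
      apply pow_le_pow_left₀ (norm_nonneg _)
      rw [PiLp.sub_apply]
      unfold gpt
      simp only
      have h0 : 0 ≤ (w i + M) * 2 ^ k := by
        have := (abs_le.1 (hwi i)).1
        apply mul_nonneg (by linarith) (by positivity)
      have h2 := Nat.floor_le h0
      have h3 := Nat.lt_floor_add_one ((w i + M) * 2 ^ k)
      have e : (2 : ℝ) ^ k * (1 / 2) ^ k = 1 := by rw [← mul_pow]; norm_num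
      have hp : (0 : ℝ) < (1 / 2) ^ k := by positivity
      have h4 : (⌊(w i + M) * 2 ^ k⌋₊ : ℝ) * (1 / 2) ^ k ≤ w i + M := by
        calc (⌊(w i + M) * 2 ^ k⌋₊ : ℝ) * (1 / 2) ^ k ≤ ((w i + M) * 2 ^ k) * (1 / 2) ^ k := by gcongr
          _ = w i + M := by rw [mul_assoc, e, mul_one]
      have h5 : w i + M ≤ (⌊(w i + M) * 2 ^ k⌋₊ : ℝ) * (1 / 2) ^ k + (1 / 2) ^ k := by
        calc w i + M = ((w i + M) * 2 ^ k) * (1 / 2) ^ k := by rw [mul_assoc, e, mul_one]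
          _ ≤ (⌊(w i + M) * 2 ^ k⌋₊ + 1) * (1 / 2) ^ k := by gcongr
          _ = _ := by ring
      rw [Real.norm_eq_abs, abs_le]
      constructor <;> linarith
    calc √(∑ i, ‖(w - gpt d M k fun i => ⟨⌊(w i + M) * 2 ^ k⌋₊, hz i⟩) i‖ ^ 2) 
        ≤ √(∑ _i : Fin d, ((1 / 2 : ℝ) ^ k) ^ 2) := by
          apply Real.sqrt_le_sqrt
          exact Finset.sum_le_sum fun i _ => h1 i
      _ = √d * (1 / 2) ^ k := by
          rw [Finset.sum_const, Finset.card_univ, Fintype.card_fin, nsmul_eq_mul, 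
            Real.sqrt_mul (Nat.cast_nonneg d), Real.sqrt_sq (by positivity)]

/-- a point in the net region has a low power at all points near the grid point -/
lemma net_power {z w : E d} {k : ℕ} (hw : ‖w - z‖ ≤ √d * (1 / 2) ^ k) {y : E d × ℝ} 
    (hy : y ∈ Net z k) : ‖w - y.1‖ ^ 2 + y.2 ≤ -(4 * (1 / 4) ^ k) := by
  obtain ⟨h1, h2⟩ := mem_box.1 hy
  rw [Metric.mem_ball, dist_eq_norm] at h1
  have h3 : ‖w - y.1‖ ≤ (1 + √d) * (1 / 2) ^ k := by
    have e : w - y.1 = (w - z) + (z - y.1) := by abel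
    rw [e]
    refine (norm_add_le _ _).trans ?_
    rw [norm_sub_rev z]
    linarith
  have h4 : ‖w - y.1‖ ^ 2 ≤ (1 + √d) ^ 2 * (1 / 4) ^ k := by
    calc ‖w - y.1‖ ^ 2 ≤ ((1 + √d) * (1 / 2) ^ k) ^ 2 := pow_le_pow_left₀ (norm_nonneg _) h3 2
      _ = (1 + √d) ^ 2 * (1 / 4) ^ k := by
          rw [mul_pow, ← pow_mul, mul_comm k 2, pow_mul]; norm_num
  have h5 := h2.1
  unfold KK at h5
  linarith

/-- the number of grid points times any exponential times the void probability is summable -/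
lemma grid_exp (hβ : (d : ℝ) / 2 + 1 < β) {κ : ℝ} (hκ : 0 < κ) (M : ℕ) :
    ∃ C : ℝ, 0 < C ∧ ∀ k : ℕ, (((2 * M * 2 ^ k + 1) ^ d : ℕ) : ℝ) * (4 ^ (β - 1)) ^ k * 
      Real.exp (-(κ * bb d β ^ k)) ≤ C * (1 / 2) ^ k := by
  have hb := bb_gt hβ
  have hb0 : 0 < bb d β := by linarith
  obtain ⟨n, hn⟩ := pow_unbounded_of_one_lt (2 * (2 ^ d * 4 ^ (β - 1))) hb
  have hΛ : (0 : ℝ) < 2 ^ d * 4 ^ (β - 1) := by positivity
  refine ⟨(2 * M + 1) ^ d * (n.factorial / κ ^ n), by positivity, ?_⟩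
  intro k
  have hx : 0 < κ * bb d β ^ k := by positivity
  have h1 : Real.exp (-(κ * bb d β ^ k)) ≤ n.factorial / (κ * bb d β ^ k) ^ n := by
    rw [Real.exp_neg, inv_eq_one_div, div_le_div_iff₀ (Real.exp_pos _) (by positivity), one_mul]
    have := Real.pow_div_factorial_le_exp (κ * bb d β ^ k) hx.le n
    rw [div_le_iff₀ (by positivity)] at this
    linarith
  have h2 : (((2 * M * 2 ^ k + 1) ^ d : ℕ) : ℝ) ≤ (2 * M + 1) ^ d * (2 ^ d) ^ k := by
    push_cast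
    rw [← pow_mul, mul_comm d k, pow_mul, ← mul_pow]
    apply pow_le_pow_left₀ (by positivity)
    have : (1 : ℝ) ≤ 2 ^ k := one_le_pow₀ (by norm_num)
    linarith
  calc (((2 * M * 2 ^ k + 1) ^ d : ℕ) : ℝ) * (4 ^ (β - 1)) ^ k * Real.exp (-(κ * bb d β ^ k))
      ≤ ((2 * M + 1) ^ d * (2 ^ d) ^ k) * (4 ^ (β - 1)) ^ k * (n.factorial / (κ * bb d β ^ k) ^ n) := by
        gcongr
    _ = (2 * M + 1) ^ d * (n.factorial / κ ^ n) * ((2 ^ d * 4 ^ (β - 1)) / bb d β ^ n) ^ k := by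
        rw [mul_pow, div_pow, mul_pow, ← pow_mul (bb d β), ← pow_mul (bb d β), mul_comm n k]
        field_simp
    _ ≤ (2 * M + 1) ^ d * (n.factorial / κ ^ n) * (1 / 2) ^ k := by
        have : (2 ^ d * 4 ^ (β - 1)) / bb d β ^ n ≤ 1 / 2 := by
          rw [div_le_div_iff₀ (by positivity) (by norm_num)]
          linarith
        gcongr

variable {Ω : Type*} [MeasurableSpace Ω] {P : Measure Ω} [IsProbabilityMeasure P]
  {X : ℕ → Ω → E d × ℝ}

lemma void_net (hβ : (d : ℝ) / 2 + 1 < β) (hc : 0 < c) (hX : IsPoisson P X (intensity d β c)) :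
    ∃ κ : ℝ, 0 < κ ∧ ∀ (z : E d) (k : ℕ), 
      P {ω | cnt X (Net z k) ω = 0} ≤ ENNReal.ofReal (Real.exp (-(κ * bb d β ^ k))) := by
  obtain ⟨κ, hκ, h⟩ := net_lower hβ hc
  refine ⟨κ, hκ, fun z k => ?_⟩
  rw [hX.zero (meas_net z k) (net_fin hβ hc z k)]
  apply ENNReal.ofReal_le_ofReal
  apply Real.exp_le_exp.2
  apply neg_le_neg
  exact (ENNReal.ofReal_le_iff_le_toReal (net_fin hβ hc z k)).1 (h z k)

lemma ofReal_sum_grid (M k : ℕ) {x y : ℝ} (hx : 0 ≤ x) 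
    (h : (((2 * M * 2 ^ k + 1) ^ d : ℕ) : ℝ) * x ≤ y) :
    ∑ _z ∈ grid d M k, ENNReal.ofReal x ≤ ENNReal.ofReal y := by
  rw [Finset.sum_const, nsmul_eq_mul]
  have h1 : ((grid d M k).card : ℝ≥0∞) = ENNReal.ofReal ((grid d M k).card : ℝ) := by simp
  rw [h1, ← ENNReal.ofReal_mul (by positivity)]
  apply ENNReal.ofReal_le_ofReal
  refine le_trans ?_ h
  have : ((grid d M k).card : ℝ) ≤ (((2 * M * 2 ^ k + 1) ^ d : ℕ) : ℝ) := by
    exact_mod_cast card_grid M k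
  gcongr

lemma dense_ae (hβ : (d : ℝ) / 2 + 1 < β) (hc : 0 < c) (hX : IsPoisson P X (intensity d β c)) :
    ∀ᵐ ω ∂P, Dense1 (Set.range fun i => X i ω) := by
  unfold Dense1
  rw [ae_all_iff]
  intro M
  obtain ⟨κ, hκ, hv⟩ := void_net hβ hc hX
  obtain ⟨C, hC, hexp⟩ := grid_exp hβ hκ M
  have hbad : P {ω | ∀ k : ℕ, ∃ z ∈ grid d M k, cnt X (Net z k) ω = 0} = 0 := by
    have hle : ∀ k : ℕ, P {ω | ∀ k : ℕ, ∃ z ∈ grid d M k, cnt X (Net z k) ω = 0} ≤ 
        ENNReal.ofReal (C * (1 / 2) ^ k) := by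
      intro k
      have hsub : {ω | ∀ k : ℕ, ∃ z ∈ grid d M k, cnt X (Net z k) ω = 0} ⊆ 
          ⋃ z ∈ grid d M k, {ω | cnt X (Net z k) ω = 0} := by
        intro ω hω
        obtain ⟨z, hz, h⟩ := hω k
        simp only [mem_iUnion]
        exact ⟨z, hz, h⟩
      refine (measure_mono hsub).trans ((measure_biUnion_finset_le _ _).trans ?_)
      refine (Finset.sum_le_sum fun z _ => hv z k).trans ?_
      apply ofReal_sum_grid M k (Real.exp_pos _).le
      refine le_trans ?_ (hexp k)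
      have h1 : (1 : ℝ) ≤ (4 ^ (β - 1)) ^ k := by
        apply one_le_pow₀
        apply Real.one_le_rpow (by norm_num)
        have : (0 : ℝ) ≤ d := Nat.cast_nonneg d
        linarith
      have h2 : (0 : ℝ) ≤ (((2 * M * 2 ^ k + 1) ^ d : ℕ) : ℝ) := Nat.cast_nonneg _
      have h3 := Real.exp_pos (-(κ * bb d β ^ k))
      calc (((2 * M * 2 ^ k + 1) ^ d : ℕ) : ℝ) * Real.exp (-(κ * bb d β ^ k)) 
          = (((2 * M * 2 ^ k + 1) ^ d : ℕ) : ℝ) * 1 * Real.exp (-(κ * bb d β ^ k)) := by ring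
        _ ≤ _ := by gcongr
    have htend : Tendsto (fun k : ℕ => ENNReal.ofReal (C * (1 / 2) ^ k)) atTop (𝓝 0) := by
      have h1 : Tendsto (fun k : ℕ => C * (1 / 2 : ℝ) ^ k) atTop (𝓝 (C * 0)) := 
        (tendsto_pow_atTop_nhds_zero_of_lt_one (by norm_num) (by norm_num)).const_mul C
      rw [mul_zero] at h1
      have := ENNReal.tendsto_ofReal h1
      simpa using this
    exact le_antisymm (ge_of_tendsto' htend hle) zero_le
  have hae : ∀ᵐ ω ∂P, ¬ ∀ k : ℕ, ∃ z ∈ grid d M k, cnt X (Net z k) ω = 0 := by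
    rw [ae_iff]
    simpa using hbad
  filter_upwards [hae] with ω hω
  push Not at hω
  obtain ⟨k, hk⟩ := hω
  refine ⟨4 * (1 / 4) ^ k, by positivity, fun w hw => ?_⟩
  obtain ⟨z, hz, hwz⟩ := grid_near k hw
  have h1 := hk z hz
  rw [Ne, cnt_eq_zero] at h1
  push Not at h1
  obtain ⟨i, hi⟩ := h1
  exact ⟨X i ω, ⟨i, rfl⟩, net_power hwz hi⟩

lemma finite_ae (hβ : (d : ℝ) / 2 + 1 < β) (hc : 0 < c) (hX : IsPoisson P X (intensity d β c)) :
    ∀ᵐ ω ∂P, ∀ m : ℕ, {i | X i ω ∈ Reg d (1 / (m + 1)) (m + 1)}.Finite := by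
  rw [ae_all_iff]
  intro m
  exact hX.finite (meas_reg _ _) (reg_fin hβ hc (by positivity))

lemma neg_ae (hX : IsPoisson P X (intensity d β c)) :
    ∀ᵐ ω ∂P, ∀ i, (X i ω).2 < 0 := by
  have hm : MeasurableSet {y : E d × ℝ | 0 ≤ y.2} := measurableSet_le measurable_const measurable_snd
  have h0 : intensity d β c {y : E d × ℝ | 0 ≤ y.2} = 0 := by
    unfold intensity
    rw [withDensity_apply _ hm]
    have : ∫⁻ y in {y : E d × ℝ | 0 ≤ y.2}, (if y.2 < 0 then ENNReal.ofReal (c * (-y.2) ^ (-β)) else 0) = 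
        ∫⁻ y in {y : E d × ℝ | 0 ≤ y.2}, 0 := by
      apply setLIntegral_congr_fun hm
      intro y hy
      have hy' : 0 ≤ y.2 := hy
      show (if y.2 < 0 then ENNReal.ofReal (c * (-y.2) ^ (-β)) else 0) = 0
      rw [if_neg (by linarith)]
    rw [this]
    simp
  have h1 := hX.zero hm (by rw [h0]; simp)
  rw [h0] at h1
  simp only [ENNReal.toReal_zero, neg_zero, Real.exp_zero, ENNReal.ofReal_one] at h1
  have h2 : ∀ᵐ ω ∂P, ω ∈ {ω | cnt X {y : E d × ℝ | 0 ≤ y.2} ω = 0} := by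
    rw [← prob_compl_eq_zero_iff (hX.meas_cnt_eq hm 0)] at h1
    exact h1
  filter_upwards [h2] with ω hω i
  have h3 := cnt_eq_zero.1 hω i
  by_contra hcon
  exact h3 (not_lt.1 hcon)

end Pool.Agent.R970.Vor
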