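import Pool.Agent.R970.Vor.Fin

set_option autoImplicit false
set_option linter.unusedSectionVars false

/-! Polynomial tail of the facet number, and the disproof of exponential decay. -/

namespace Pool.Agent.R970.Vor

open Set Filter Topology MeasureTheory
open scoped ENNReal

variable {d : ℕ} {β c : ℝ} {Ω : Type*} [MeasurableSpace Ω] {P : Measure Ω} [IsProbabilityMeasure P]
  {X : ℕ → Ω → E d × ℝ}

lemma ecount_mono (B : Set (E d)) {D D' : Set (E d) → Prop} (h : ∀ Q, D Q → D' Q) :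
    ECount P X B D ≤ ECount P X B D' := by
  unfold ECount
  refine ENNReal.tsum_le_tsum fun i => measure_mono ?_
  intro ω hω
  exact ⟨hω.1, hω.2.1, h _ hω.2.2⟩

lemma ecount_iUnion (B : Set (E d)) (D : ℕ → Set (E d) → Prop) {D' : Set (E d) → Prop} 
    (h : ∀ Q, D' Q → ∃ n, D n Q) : ECount P X B D' ≤ ∑' n, ECount P X B (D n) := by
  unfold ECount
  rw [ENNReal.tsum_comm]
  refine ENNReal.tsum_le_tsum fun i => ?_
  refine le_trans (measure_mono ?_) (measure_iUnion_le _)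
  intro ω hω
  obtain ⟨n, hn⟩ := h _ hω.2.2
  rw [mem_iUnion]
  exact ⟨n, hω.1, hω.2.1, hn⟩

/-- the exponent -/
noncomputable def expo (d : ℕ) (β : ℝ) : ℝ := 4 * (β - 1) ^ 2 / (2 * (β - 1) - d)

theorem tail_lower (hd : 2 ≤ d) (hβ : (d : ℝ) / 2 + 1 < β) (hc : 0 < c) 
    (hX : IsPoisson P X (intensity d β c)) {B : Set (E d)} (hB : MeasurableSet B) 
    (hBb : Bornology.IsBounded B) (hB0 : 0 < volume B) : 
    ∃ c2 : ℝ, 0 < c2 ∧ ∀ N : ℕ, 1 ≤ N → 
      ENNReal.ofReal (c2 * (N : ℝ) ^ (-expo d β)) ≤ ECount P X B fun Q => ∃ n : ℕ, N ≤ n ∧ PolyN n Q := by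
  obtain ⟨c1, hc1, h⟩ := num_lower hd hβ hc hX hB hBb hB0
  have hβ1 := beta_pos hβ
  set σ := (d : ℝ) / (2 * (β - 1)) with hσ
  have hσ1 : σ < 1 := by rw [hσ, div_lt_one (by linarith)]; linarith
  have h1σ : 0 < 1 - σ := by linarith
  have hexpo : expo d β = 2 * (β - 1) / (1 - σ) := by
    unfold expo
    rw [hσ]
    have h1 : β - 1 ≠ 0 := by linarith
    have h2 : 2 * (β - 1) - d ≠ 0 := by
      have : 0 < 2 * (β - 1) - d := by linarith
      exact this.ne'
    have h3 : 1 - (d : ℝ) / (2 * (β - 1)) ≠ 0 := by rw [← hσ]; exact h1σ.ne'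
    field_simp
    ring
  refine ⟨c1 * 16 ^ ((1 - β) / (1 - σ)), by positivity, ?_⟩
  intro N hN
  have hNR : (1 : ℝ) ≤ N := by exact_mod_cast hN
  have hN2 : (1 : ℝ) ≤ (N : ℝ) ^ 2 := one_le_pow₀ hNR
  set t := (16 * (N : ℝ) ^ 2) ^ (1 / (1 - σ)) with ht
  have ht1 : 1 < t := by
    apply Real.one_lt_rpow
    · linarith
    · positivity
  have ht0 : 0 < t := by linarith
  have htσ : t ^ (1 - σ) = 16 * (N : ℝ) ^ 2 := by
    rw [ht, ← Real.rpow_mul (by positivity)]
    rw [one_div, inv_mul_cancel₀ h1σ.ne', Real.rpow_one]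
  have hM : 8 * (N : ℝ) ^ 2 * t ^ σ < t := by
    have h1 : t = t ^ (1 - σ) * t ^ σ := by
      rw [← Real.rpow_add ht0]
      simp
    have h2 : 0 < t ^ σ := by positivity
    calc 8 * (N : ℝ) ^ 2 * t ^ σ < (16 * (N : ℝ) ^ 2) * t ^ σ := by
          apply mul_lt_mul_of_pos_right _ h2
          linarith
      _ = t := by rw [← htσ, ← h1]
  refine le_trans (le_of_eq ?_) (h t N ht1 hM)
  congr 1
  rw [mul_assoc]
  congr 1
  rw [ht, ← Real.rpow_mul (by positivity), Real.mul_rpow (by norm_num) (by positivity), 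
    ← Real.rpow_natCast (N : ℝ) 2, ← Real.rpow_mul (by positivity), hexpo]
  congr 1
  · congr 1; field_simp
  · congr 1; push_cast; field_simp; ring

theorem main (hd : 2 ≤ d) (hβ : (d : ℝ) / 2 + 1 < β) (hc : 0 < c) 
    (hX : IsPoisson P X (intensity d β c)) {B : Set (E d)} (hB : MeasurableSet B) 
    (hBb : Bornology.IsBounded B) (hB0 : 0 < volume B) : 
    ECount P X B (fun _ => True) ≠ 0 ∧ ECount P X B (fun _ => True) ≠ ∞ ∧
    (∃ κ : ℝ, 0 < κ ∧ ∀ N : ℕ, 1 ≤ N → 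
      κ * (N : ℝ) ^ (-expo d β) ≤ (typ P X B fun Q => ∃ n : ℕ, N ≤ n ∧ PolyN n Q).toReal) ∧
    ¬ ∃ C : ℝ, C < 1 ∧ ∀ n : ℕ, d + 1 ≤ n → (typ P X B (PolyN n)).toReal < C ^ n := by
  obtain ⟨c2, hc2, htail⟩ := tail_lower hd hβ hc hX hB hBb hB0
  have hfin := denom_finite hβ hc hX hB hBb
  have hle : ∀ D : Set (E d) → Prop, ECount P X B D ≤ ECount P X B (fun _ => True) := 
    fun D => ecount_mono B fun _ _ => trivial
  have hpos : ECount P X B (fun _ => True) ≠ 0 := by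
    intro h0
    have h1 := (htail 1 le_rfl).trans (hle _)
    rw [h0] at h1
    simp only [Nat.cast_one, Real.one_rpow, mul_one, nonpos_iff_eq_zero, ENNReal.ofReal_eq_zero] at h1
    linarith
  set D0 := ECount P X B (fun _ => True) with hD0
  have hD0r : 0 < D0.toReal := ENNReal.toReal_pos hpos hfin
  have hκ : ∀ N : ℕ, 1 ≤ N → 
      c2 / D0.toReal * (N : ℝ) ^ (-expo d β) ≤ (typ P X B fun Q => ∃ n : ℕ, N ≤ n ∧ PolyN n Q).toReal := by
    intro N hN
    have h1 := htail N hN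
    have h2 : ECount P X B (fun Q => ∃ n : ℕ, N ≤ n ∧ PolyN n Q) ≠ ∞ := ne_top_of_le_ne_top hfin (hle _)
    have h3 := (ENNReal.ofReal_le_iff_le_toReal h2).1 h1
    unfold typ
    rw [ENNReal.toReal_div, ← hD0, div_mul_eq_mul_div]
    gcongr
  refine ⟨hpos, hfin, ⟨c2 / D0.toReal, by positivity, hκ⟩, ?_⟩
  rintro ⟨C, hC1, hC⟩
  -- C is positive
  have hC0 : 0 < C := by
    by_contra hcon
    push Not at hcon
    have h1 := hC (2 * d + 1) (by omega)
    have h2 : C ^ (2 * d + 1) ≤ 0 := Odd.pow_nonpos ⟨d, rfl⟩ hcon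
    have h3 : 0 ≤ (typ P X B (PolyN (2 * d + 1))).toReal := ENNReal.toReal_nonneg
    linarith
  set κ := c2 / D0.toReal with hκdef
  have hκ0 : 0 < κ := by positivity
  -- the tail is at most exponential
  have htop : ∀ D : Set (E d) → Prop, typ P X B D ≠ ∞ := by
    intro D
    unfold typ
    exact ENNReal.div_ne_top (ne_top_of_le_ne_top hfin (hle D)) hpos
  have hup : ∀ N : ℕ, d + 1 ≤ N → 
      (typ P X B fun Q => ∃ n : ℕ, N ≤ n ∧ PolyN n Q).toReal ≤ C ^ N * (1 - C)⁻¹ := by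
    intro N hN
    have h1 : (typ P X B fun Q => ∃ n : ℕ, N ≤ n ∧ PolyN n Q) ≤ ∑' m : ℕ, typ P X B (PolyN (N + m)) := by
      unfold typ
      simp only [div_eq_mul_inv]
      rw [ENNReal.tsum_mul_right]
      gcongr
      refine ecount_iUnion B (fun m => PolyN (N + m)) ?_
      rintro Q ⟨n, hn, hQ⟩
      exact ⟨n - N, by rw [Nat.add_sub_cancel' hn]; exact hQ⟩
    have h2 : ∀ m : ℕ, typ P X B (PolyN (N + m)) ≤ ENNReal.ofReal (C ^ N * C ^ m) := by
      intro m
      rw [← pow_add]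
      apply (ENNReal.le_ofReal_iff_toReal_le (htop _) (by positivity)).2
      exact (hC (N + m) (by omega)).le
    have h3 := h1.trans (ENNReal.tsum_le_tsum h2)
    have h4 : ∑' m : ℕ, ENNReal.ofReal (C ^ N * C ^ m) = ENNReal.ofReal (C ^ N * (1 - C)⁻¹) := by
      rw [← ENNReal.ofReal_tsum_of_nonneg (fun m => by positivity) 
        ((summable_geometric_of_lt_one hC0.le hC1).mul_left _), tsum_mul_left, 
        tsum_geometric_of_lt_one hC0.le hC1]
    rw [h4] at h3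
    have h5 : 0 ≤ C ^ N * (1 - C)⁻¹ := by
      have : 0 < 1 - C := by linarith
      positivity
    exact ENNReal.toReal_le_of_le_ofReal h5 h3
  have hcomb : ∀ᶠ N : ℕ in atTop, κ * (1 - C) ≤ (N : ℝ) ^ (expo d β) * C ^ N := by
    filter_upwards [eventually_ge_atTop (d + 1)] with N hN
    have h1 := (hκ N (by omega)).trans (hup N hN)
    have hNR : (0 : ℝ) < N := by
      have : 0 < N := by omega
      exact_mod_cast this
    have h2 : 0 < 1 - C := by linarith
    have h3 : 0 < (N : ℝ) ^ (expo d β) := by positivity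
    rw [Real.rpow_neg hNR.le] at h1
    have h4 : κ * (1 - C) = (κ * ((N : ℝ) ^ (expo d β))⁻¹) * ((N : ℝ) ^ (expo d β) * (1 - C)) := by
      field_simp
    rw [h4]
    calc (κ * ((N : ℝ) ^ (expo d β))⁻¹) * ((N : ℝ) ^ (expo d β) * (1 - C)) 
        ≤ (C ^ N * (1 - C)⁻¹) * ((N : ℝ) ^ (expo d β) * (1 - C)) := by gcongr
      _ = _ := by field_simp
  have hlim : Tendsto (fun N : ℕ => (N : ℝ) ^ (expo d β) * C ^ N) atTop (𝓝 0) := by
    have h1 : Tendsto (fun x : ℝ => x ^ (expo d β) * Real.exp (-(-Real.log C) * x)) atTop (𝓝 0) :=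
      tendsto_rpow_mul_exp_neg_mul_atTop_nhds_zero _ _ (by
        have := Real.log_neg hC0 hC1
        linarith)
    have h2 := h1.comp (tendsto_natCast_atTop_atTop (R := ℝ))
    refine h2.congr fun N => ?_
    simp only [Function.comp, neg_neg]
    congr 1
    rw [mul_comm, ← Real.log_pow, Real.exp_log (by positivity)]
  have hfinal := ge_of_tendsto hlim hcomb
  have : 0 < κ * (1 - C) := mul_pos hκ0 (by linarith)
  linarith

end Pool.Agent.R970.Vor
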