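import Pool.Agent.R970.Vor.Det

set_option autoImplicit false

/-! Bounds for the intensity measure. -/

namespace Pool.Agent.R970.Vor

open Set Filter Topology MeasureTheory
open scoped ENNReal

variable {d : ℕ} {β c : ℝ}

lemma meas_dens : Measurable (fun x : E d × ℝ => 
    if x.2 < 0 then ENNReal.ofReal (c * (-x.2) ^ (-β)) else 0) := by
  apply Measurable.ite
  · exact measurableSet_lt measurable_snd measurable_const
  · exact (((measurable_snd.neg).pow_const _).const_mul c).ennreal_ofReal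
  · exact measurable_const

lemma intensity_lower (hβ : 0 < β) (hc : 0 < c) {A : Set (E d × ℝ)} (hA : MeasurableSet A) {b : ℝ}
    (h : ∀ y ∈ A, 0 < -y.2 ∧ -y.2 ≤ b) :
    ENNReal.ofReal (c * b ^ (-β)) * volume A ≤ intensity d β c A := by
  unfold intensity
  rw [withDensity_apply _ hA, ← setLIntegral_const]
  apply setLIntegral_mono meas_dens
  intro y hy
  obtain ⟨h1, h2⟩ := h y hy
  rw [if_pos (by linarith)]
  apply ENNReal.ofReal_le_ofReal
  apply mul_le_mul_of_nonneg_left _ hc.le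
  exact Real.rpow_le_rpow_of_nonpos h1 h2 (by linarith)

lemma intensity_upper (hβ : 0 < β) (hc : 0 < c) {A : Set (E d × ℝ)} (hA : MeasurableSet A) {a : ℝ}
    (ha : 0 < a) (h : ∀ y ∈ A, a ≤ -y.2) :
    intensity d β c A ≤ ENNReal.ofReal (c * a ^ (-β)) * volume A := by
  unfold intensity
  rw [withDensity_apply _ hA, ← setLIntegral_const]
  apply setLIntegral_mono measurable_const
  intro y hy
  have h1 := h y hy
  rw [if_pos (by linarith)]
  apply ENNReal.ofReal_le_ofReal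
  apply mul_le_mul_of_nonneg_left _ hc.le
  exact Real.rpow_le_rpow_of_nonpos ha h1 (by linarith)

/-- a box -/
def Box (A : Set (E d)) (I : Set ℝ) : Set (E d × ℝ) := A ×ˢ (Neg.neg ⁻¹' I)

lemma mem_box {A : Set (E d)} {I : Set ℝ} {y : E d × ℝ} : y ∈ Box A I ↔ y.1 ∈ A ∧ -y.2 ∈ I := Iff.rfl

lemma meas_box {A : Set (E d)} (hA : MeasurableSet A) {I : Set ℝ} (hI : MeasurableSet I) : 
    MeasurableSet (Box A I) := hA.prod (measurable_neg hI)

lemma vol_box (A : Set (E d)) (I : Set ℝ) : 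
    volume (Box A I) = volume A * volume I := by
  unfold Box
  rw [Measure.volume_eq_prod, Measure.prod_prod, Measure.measure_preimage_neg]

lemma box_lower (hβ : 0 < β) (hc : 0 < c) {A : Set (E d)} (hA : MeasurableSet A) {I : Set ℝ} 
    (hI : MeasurableSet I) {b : ℝ} (h : I ⊆ Ioc 0 b) :
    ENNReal.ofReal (c * b ^ (-β)) * (volume A * volume I) ≤ intensity d β c (Box A I) := by
  rw [← vol_box]
  exact intensity_lower hβ hc (meas_box hA hI) fun y hy => h hy.2

lemma box_upper (hβ : 0 < β) (hc : 0 < c) {A : Set (E d)} (hA : MeasurableSet A) {I : Set ℝ} 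
    (hI : MeasurableSet I) {a : ℝ} (ha : 0 < a) (h : I ⊆ Ici a) :
    intensity d β c (Box A I) ≤ ENNReal.ofReal (c * a ^ (-β)) * (volume A * volume I) := by
  rw [← vol_box]
  exact intensity_upper hβ hc (meas_box hA hI) ha fun y hy => h hy.2

/-- volume of the unit ball -/
noncomputable def V (d : ℕ) : ℝ := (volume (Metric.ball (0 : E d) 1)).toReal

lemma V_pos : 0 < V d := by
  unfold V
  apply ENNReal.toReal_pos
  · exact (Metric.measure_ball_pos volume 0 one_pos).ne'
  · exact measure_ball_lt_top.ne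

lemma vol_ball1 : volume (Metric.ball (0 : E d) 1) = ENNReal.ofReal (V d) := by
  unfold V
  rw [ENNReal.ofReal_toReal measure_ball_lt_top.ne]

lemma vol_ball (z : E d) {r : ℝ} (hr : 0 < r) : 
    volume (Metric.ball z r) = ENNReal.ofReal (r ^ d * V d) := by
  rw [Measure.addHaar_ball_of_pos volume z hr, finrank_euclideanSpace, Fintype.card_fin, vol_ball1,
    ← ENNReal.ofReal_mul (by positivity)]

lemma vol_closedBall (z : E d) {r : ℝ} (hr : 0 < r) : 
    volume (Metric.closedBall z r) = ENNReal.ofReal (r ^ d * V d) := by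
  rw [Measure.addHaar_closedBall volume z hr.le, finrank_euclideanSpace, Fintype.card_fin, vol_ball1,
    ← ENNReal.ofReal_mul (by positivity)]

/-- the ratio of the geometric series -/
noncomputable def qq (d : ℕ) (β : ℝ) : ℝ := 2 ^ (1 - β) * √2 ^ d

lemma qq_pos : 0 < qq d β := by unfold qq; positivity

lemma qq_lt (hβ : (d : ℝ) / 2 + 1 < β) : qq d β < 1 := by
  unfold qq
  have h1 : √2 ^ d = (2 : ℝ) ^ ((d : ℝ) / 2) := by
    rw [Real.sqrt_eq_rpow, ← Real.rpow_natCast, ← Real.rpow_mul (by norm_num)]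
    congr 1
    ring
  rw [h1, ← Real.rpow_add (by norm_num)]
  apply Real.rpow_lt_one_of_one_lt_of_neg (by norm_num)
  linarith

lemma meas_reg (s R : ℝ) : MeasurableSet (Reg d s R) := by
  unfold Reg
  apply measurableSet_lt
  · fun_prop
  · exact measurable_snd.neg

lemma reg_upper (hβ : (d : ℝ) / 2 + 1 < β) (hc : 0 < c) : 
    ∃ C : ℝ, 0 < C ∧ ∀ s R : ℝ, 0 < s → 0 < R → s ≤ R ^ 2 → 
      intensity d β c (Reg d s R) ≤ ENNReal.ofReal (C * (s ^ (1 - β) * R ^ d)) := by
  have hβ0 : 0 < β := by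
    have : (0 : ℝ) ≤ d := Nat.cast_nonneg d
    linarith
  have hq := qq_lt hβ
  have hq0 : 0 < qq d β := qq_pos
  have hV : 0 < V d := V_pos
  have h1q : 0 < 1 - qq d β := by linarith
  refine ⟨c * V d * 3 ^ d * (1 - qq d β)⁻¹, by positivity, ?_⟩
  intro s R hs hR hsR
  have hsub : Reg d s R ⊆ ⋃ j : ℕ, Box (Metric.closedBall (0 : E d) (3 * R * √2 ^ j)) 
      (Icc (2 ^ j * s) (2 * (2 ^ j * s))) := by
    intro y hy
    have hy' : s + (max (‖y.1‖ - R) 0) ^ 2 < -y.2 := hy
    have h0 : 0 ≤ (max (‖y.1‖ - R) 0) ^ 2 := sq_nonneg _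
    have h1 : 1 ≤ -y.2 / s := by rw [le_div_iff₀ hs]; linarith
    obtain ⟨j, hj1, hj2⟩ := exists_nat_pow_near h1 (by norm_num : (1 : ℝ) < 2)
    rw [le_div_iff₀ hs] at hj1
    rw [div_lt_iff₀ hs, pow_succ] at hj2
    rw [mem_iUnion]
    refine ⟨j, ?_, hj1, by linarith⟩
    rw [mem_closedBall_zero_iff]
    have hp : 0 < √2 ^ j := by positivity
    have hp1 : 1 ≤ √2 ^ j := one_le_pow₀ (by rw [Real.one_le_sqrt]; norm_num)
    have hsq : (√2 ^ j) ^ 2 = 2 ^ j := by
      rw [← pow_mul, mul_comm, pow_mul, Real.sq_sqrt (by norm_num)]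
    have h3 : (max (‖y.1‖ - R) 0) ^ 2 ≤ (2 * R * √2 ^ j) ^ 2 := by
      have h4 : (2 * R * √2 ^ j) ^ 2 = 4 * (2 ^ j * R ^ 2) := by rw [mul_pow, mul_pow, hsq]; ring
      rw [h4]
      have h5 : 2 ^ j * s ≤ 2 ^ j * R ^ 2 := by gcongr
      have h6 : 0 ≤ 2 ^ j * R ^ 2 := by positivity
      linarith
    have h4 : max (‖y.1‖ - R) 0 ≤ 2 * R * √2 ^ j := by
      apply le_of_sq_le_sq h3 (by positivity)
    have h5 : ‖y.1‖ - R ≤ 2 * R * √2 ^ j := (le_max_left _ _).trans h4
    have h6 : R ≤ R * √2 ^ j := le_mul_of_one_le_right hR.le hp1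
    linarith
  refine (measure_mono hsub).trans ((measure_iUnion_le _).trans ?_)
  have hterm : ∀ j : ℕ, intensity d β c (Box (Metric.closedBall (0 : E d) (3 * R * √2 ^ j)) 
      (Icc (2 ^ j * s) (2 * (2 ^ j * s)))) ≤ 
      ENNReal.ofReal ((c * V d * 3 ^ d * (s ^ (1 - β) * R ^ d)) * qq d β ^ j) := by
    intro j
    refine (box_upper hβ0 hc Metric.isClosed_closedBall.measurableSet measurableSet_Icc
      (a := 2 ^ j * s) (by positivity) Icc_subset_Ici_self).trans ?_
    rw [vol_closedBall _ (by positivity), Real.volume_Icc, ← ENNReal.ofReal_mul (by positivity),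
      ← ENNReal.ofReal_mul (by positivity)]
    apply ENNReal.ofReal_le_ofReal
    apply le_of_eq
    have e1 : (2 ^ j * s : ℝ) ^ (-β) * (2 * (2 ^ j * s) - 2 ^ j * s) = (2 ^ (1 - β)) ^ j * s ^ (1 - β) := by
      have h1 : (2 * (2 ^ j * s) - 2 ^ j * s : ℝ) = (2 ^ j * s) ^ (1 : ℝ) := by rw [Real.rpow_one]; ring
      rw [h1, ← Real.rpow_add (by positivity), Real.mul_rpow (by positivity) hs.le]
      congr 1
      · rw [← Real.rpow_natCast, ← Real.rpow_natCast, ← Real.rpow_mul (by norm_num), 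
          ← Real.rpow_mul (by norm_num)]
        congr 1
        ring
      · congr 1; ring
    have e2 : (3 * R * √2 ^ j) ^ d = 3 ^ d * R ^ d * (√2 ^ d) ^ j := by
      rw [mul_pow, mul_pow, ← pow_mul, ← pow_mul, mul_comm j d]
    calc c * (2 ^ j * s) ^ (-β) * ((3 * R * √2 ^ j) ^ d * V d * (2 * (2 ^ j * s) - 2 ^ j * s))
        = c * ((2 ^ j * s) ^ (-β) * (2 * (2 ^ j * s) - 2 ^ j * s)) * ((3 * R * √2 ^ j) ^ d * V d) := by ring
      _ = c * V d * 3 ^ d * (s ^ (1 - β) * R ^ d) * qq d β ^ j := by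
          rw [e1, e2]
          unfold qq
          rw [mul_pow]
          ring
  refine (ENNReal.tsum_le_tsum hterm).trans ?_
  rw [← ENNReal.ofReal_tsum_of_nonneg (fun j => by positivity) 
    ((summable_geometric_of_lt_one hq0.le hq).mul_left _), tsum_mul_left, 
    tsum_geometric_of_lt_one hq0.le hq]
  apply ENNReal.ofReal_le_ofReal
  apply le_of_eq
  ring

lemma reg_fin (hβ : (d : ℝ) / 2 + 1 < β) (hc : 0 < c) {s R : ℝ} (hs : 0 < s) : 
    intensity d β c (Reg d s R) ≠ ∞ := by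
  obtain ⟨C, hC, h⟩ := reg_upper hβ hc
  have h1 : Reg d s R ⊆ Reg d s (max R (s + 1)) := reg_mono le_rfl (le_max_left _ _)
  have h2 : s + 1 ≤ max R (s + 1) := le_max_right _ _
  refine ne_top_of_le_ne_top ?_ ((measure_mono h1).trans (h s _ hs (by linarith) ?_))
  · exact ENNReal.ofReal_ne_top
  · nlinarith

/-- the constant of the net -/
noncomputable def KK (d : ℕ) : ℝ := 4 + (1 + √d) ^ 2

lemma KK_ge : 4 ≤ KK d := by unfold KK; have := sq_nonneg (1 + √(d : ℝ)); linarith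

/-- the region which must be empty -/
def Net (z : E d) (k : ℕ) : Set (E d × ℝ) :=
  Box (Metric.ball z ((1 / 2) ^ k)) (Ioo (KK d * (1 / 4) ^ k) (2 * (KK d * (1 / 4) ^ k)))

lemma meas_net (z : E d) (k : ℕ) : MeasurableSet (Net z k) :=
  meas_box Metric.isOpen_ball.measurableSet measurableSet_Ioo

/-- base of the exponential growth -/
noncomputable def bb (d : ℕ) (β : ℝ) : ℝ := 4 ^ (β - 1) / 2 ^ d

lemma bb_gt (hβ : (d : ℝ) / 2 + 1 < β) : 1 < bb d β := by
  unfold bb
  rw [one_lt_div (by positivity)]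
  have h1 : (2 : ℝ) ^ d = 4 ^ ((d : ℝ) / 2) := by
    rw [show (4 : ℝ) = 2 ^ (2 : ℝ) by norm_num, ← Real.rpow_mul (by norm_num), ← Real.rpow_natCast]
    congr 1
    ring
  rw [h1]
  apply Real.rpow_lt_rpow_of_exponent_lt (by norm_num)
  linarith

lemma net_lower (hβ : (d : ℝ) / 2 + 1 < β) (hc : 0 < c) : 
    ∃ κ : ℝ, 0 < κ ∧ ∀ (z : E d) (k : ℕ), 
      ENNReal.ofReal (κ * bb d β ^ k) ≤ intensity d β c (Net z k) := by
  have hβ0 : 0 < β := by
    have : (0 : ℝ) ≤ d := Nat.cast_nonneg d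
    linarith
  have hV : 0 < V d := V_pos
  have hK : 0 < KK d := by have := KK_ge (d := d); linarith
  refine ⟨c * (2 * KK d) ^ (-β) * V d * KK d, by positivity, ?_⟩
  intro z k
  refine le_trans ?_ (box_lower hβ0 hc Metric.isOpen_ball.measurableSet measurableSet_Ioo
    (b := 2 * (KK d * (1 / 4) ^ k)) ?_)
  · rw [vol_ball _ (by positivity), Real.volume_Ioo, ← ENNReal.ofReal_mul (by positivity),
      ← ENNReal.ofReal_mul (by positivity)]
    apply ENNReal.ofReal_le_ofReal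
    apply le_of_eq
    have e1 : (2 * (KK d * (1 / 4) ^ k)) ^ (-β) * ((1 / 4 : ℝ) ^ k) = 
        (2 * KK d) ^ (-β) * (4 ^ (β - 1)) ^ k := by
      rw [← mul_assoc, Real.mul_rpow (by positivity) (by positivity), mul_assoc]
      congr 1
      have h4 : ((1 / 4 : ℝ) ^ k) = 4 ^ (-(k : ℝ)) := by
        rw [one_div, inv_pow, Real.rpow_neg (by norm_num), Real.rpow_natCast]
      rw [h4, ← Real.rpow_mul (by norm_num), ← Real.rpow_add (by norm_num), 
        ← Real.rpow_natCast (4 ^ (β - 1)), ← Real.rpow_mul (by norm_num)]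
      congr 1
      ring
    have e2 : (((1 / 2 : ℝ) ^ k) ^ d) = ((2 ^ d)⁻¹) ^ k := by
      rw [← pow_mul, mul_comm, pow_mul, one_div, inv_pow]
    calc c * (2 * KK d) ^ (-β) * V d * KK d * bb d β ^ k 
        = c * ((2 * KK d) ^ (-β) * (4 ^ (β - 1)) ^ k) * V d * KK d * ((2 ^ d)⁻¹) ^ k := by
          unfold bb
          rw [div_eq_mul_inv, mul_pow]
          ring
      _ = c * (2 * (KK d * (1 / 4) ^ k)) ^ (-β) * (((1 / 2) ^ k) ^ d * V d * 
          (2 * (KK d * (1 / 4) ^ k) - KK d * (1 / 4) ^ k)) := by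
          rw [← e1, ← e2]
          ring
  · intro u hu
    exact ⟨lt_trans (by positivity) hu.1, hu.2.le⟩

lemma net_fin (hβ : (d : ℝ) / 2 + 1 < β) (hc : 0 < c) (z : E d) (k : ℕ) : 
    intensity d β c (Net z k) ≠ ∞ := by
  have hβ0 : 0 < β := by
    have : (0 : ℝ) ≤ d := Nat.cast_nonneg d
    linarith
  have hK : 0 < KK d := by have := KK_ge (d := d); linarith
  refine ne_top_of_le_ne_top ?_ (box_upper hβ0 hc Metric.isOpen_ball.measurableSet measurableSet_Ioo
    (a := KK d * (1 / 4) ^ k) (by positivity) ?_)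
  · apply ENNReal.mul_ne_top ENNReal.ofReal_ne_top
    apply ENNReal.mul_ne_top measure_ball_lt_top.ne
    rw [Real.volume_Ioo]
    exact ENNReal.ofReal_ne_top
  · intro u hu
    exact hu.1.le

end Pool.Agent.R970.Vor
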