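import Pool.Agent.R970.Vor.Defs

set_option autoImplicit false

/-! Facets of a full-dimensional polytope sandwiched between two close balls. -/

namespace Pool.Agent.R970.Vor

open Set Filter Topology
open scoped InnerProductSpace

variable {d : ℕ} {τ : Type*} {T : Finset τ} {a : τ → E d} {b : τ → ℝ} {Q : Set (E d)}

lemma convex_Q (hQ : Q = {w | ∀ y ∈ T, ⟪a y, w⟫_ℝ ≤ b y}) : Convex ℝ Q := by
  rw [hQ]
  intro x hx z hz s t hs ht hst y hy
  rw [inner_add_right, inner_smul_right, inner_smul_right]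
  have h1 := hx y hy
  have h2 := hz y hy
  calc s * ⟪a y, x⟫_ℝ + t * ⟪a y, z⟫_ℝ ≤ s * b y + t * b y := by gcongr
    _ = b y := by rw [← add_mul, hst, one_mul]

lemma finrank_ker_inner {v : E d} (hv : v ≠ 0) :
    Module.finrank ℝ (LinearMap.ker (innerSL ℝ v).toLinearMap) + 1 = d := by
  have h1 := LinearMap.finrank_range_add_finrank_ker (innerSL ℝ v).toLinearMap
  have h2 : LinearMap.range (innerSL ℝ v).toLinearMap = ⊤ := by
    apply LinearMap.range_eq_top.2
    apply LinearMap.surjective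
    intro h
    apply hv
    have := congrArg (fun f => f v) h
    simpa using this
  rw [h2, finrank_top] at h1
  simp only [Module.finrank_self, finrank_euclideanSpace, Fintype.card_fin] at h1
  omega

/-- a linear functional which is maximal at an interior point vanishes -/
lemma eq_zero_of_max {l : E d →L[ℝ] ℝ} {x : E d} (hx : x ∈ interior Q) (h : ∀ y ∈ Q, l y ≤ l x) :
    l = 0 := by
  rw [mem_interior_iff_mem_nhds, Metric.mem_nhds_iff] at hx
  obtain ⟨ε, hε, hb⟩ := hx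
  ext u
  simp only [_root_.zero_apply]
  have key : ∀ u : E d, l u ≤ 0 := by
    intro u
    have hpos : 0 < ε / (2 * (‖u‖ + 1)) := by positivity
    have hmem : x + (ε / (2 * (‖u‖ + 1))) • u ∈ Q := by
      apply hb
      rw [Metric.mem_ball, dist_eq_norm, add_sub_cancel_left, norm_smul, Real.norm_of_nonneg hpos.le]
      have : ‖u‖ < ‖u‖ + 1 := by linarith
      calc ε / (2 * (‖u‖ + 1)) * ‖u‖ ≤ ε / (2 * (‖u‖ + 1)) * (‖u‖ + 1) := by gcongr
        _ = ε / 2 := by field_simp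
        _ < ε := by linarith
    have h1 := h _ hmem
    rw [map_add, map_smul, smul_eq_mul] at h1
    have h2 : (ε / (2 * (‖u‖ + 1))) * l u ≤ 0 := by linarith
    exact nonpos_of_mul_nonpos_right h2 hpos
  have h1 := key u
  have h2 := key (-u)
  rw [map_neg] at h2
  linarith

lemma interior_strict (hQ : Q = {w | ∀ y ∈ T, ⟪a y, w⟫_ℝ ≤ b y}) {x : E d}
    (hx : ∀ y ∈ T, ⟪a y, x⟫_ℝ < b y) : x ∈ interior Q := by
  have hopen : IsOpen {w : E d | ∀ y ∈ T, ⟪a y, w⟫_ℝ < b y} := by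
    have : {w : E d | ∀ y ∈ T, ⟪a y, w⟫_ℝ < b y} = ⋂ y ∈ T, {w : E d | ⟪a y, w⟫_ℝ < b y} := by
      ext w; simp
    rw [this]
    exact isOpen_biInter_finset fun y _ => isOpen_lt (by fun_prop) continuous_const
  apply interior_maximal _ hopen hx
  rw [hQ]
  intro w hw y hy
  exact (hw y hy).le

/-- each facet is one of the sets `Q ∩ ∂H` -/
lemma facet_eq (hQ : Q = {w | ∀ y ∈ T, ⟪a y, w⟫_ℝ ≤ b y}) (ha : ∀ y ∈ T, a y ≠ 0)
    (h0 : (0 : E d) ∈ interior Q) {F : Set (E d)} (hF : F ∈ facets Q) :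
    ∃ y ∈ T, F = {w ∈ Q | ⟪a y, w⟫_ℝ = b y} := by
  obtain ⟨hexp, hne, hdim⟩ := hF
  obtain ⟨l, hl⟩ := hexp hne
  have hFQ : F ⊆ Q := by
    rw [hl]; exact fun x hx => hx.1
  have hFconv : Convex ℝ F := (hexp.convex (convex_Q hQ))
  -- l ≠ 0
  have hl0 : l ≠ 0 := by
    intro h
    have : F = Q := by
      rw [hl, h]; ext x; simp
    rw [this] at hdim
    have h1 : vectorSpan ℝ Q = ⊤ := by
      have h2 : affineSpan ℝ Q = ⊤ := by
        have h3 : affineSpan ℝ (interior Q) = ⊤ := isOpen_interior.affineSpan_eq_top ⟨0, h0⟩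
        rw [eq_top_iff, ← h3]
        exact affineSpan_mono ℝ interior_subset
      rw [← direction_affineSpan, h2, AffineSubspace.direction_top]
    rw [h1, finrank_top, finrank_euclideanSpace, Fintype.card_fin] at hdim
    omega
  -- F is contained in some hyperplane
  have hex : ∃ y ∈ T, ∀ x ∈ F, ⟪a y, x⟫_ℝ = b y := by
    by_contra hcon
    push Not at hcon
    obtain ⟨x1, hx1⟩ := hne
    have hTne : T.Nonempty := by
      by_contra hT
      rw [Finset.not_nonempty_iff_eq_empty] at hT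
      have : Q = Set.univ := by rw [hQ, hT]; simp
      apply hl0
      apply eq_zero_of_max (Q := Q) (x := x1)
      · rw [this]; simp
      · rw [hl] at hx1; exact hx1.2
    choose! g hg1 hg2 using hcon
    have hlt : ∀ y ∈ T, ⟪a y, g y⟫_ℝ < b y := by
      intro y hy
      have h1 : g y ∈ Q := hFQ (hg1 y hy)
      rw [hQ] at h1
      exact lt_of_le_of_ne (h1 y hy) (hg2 y hy)
    have hcard : (0 : ℝ) < T.card := by exact_mod_cast hTne.card_pos
    set x0 : E d := ∑ z ∈ T, (1 / (T.card : ℝ)) • g z with hx0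
    have hx0F : x0 ∈ F := by
      apply hFconv.sum_mem
      · intro i _; positivity
      · rw [Finset.sum_const, nsmul_eq_mul]; field_simp
      · intro i hi; exact hg1 i hi
    have hx0int : x0 ∈ interior Q := by
      apply interior_strict hQ
      intro y hy
      rw [hx0, inner_sum]
      simp only [inner_smul_right]
      have : ∑ z ∈ T, 1 / (T.card : ℝ) * ⟪a y, g z⟫_ℝ < ∑ z ∈ T, 1 / (T.card : ℝ) * b y := by
        apply Finset.sum_lt_sum
        · intro z hz
          have h1 : g z ∈ Q := hFQ (hg1 z hz)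
          rw [hQ] at h1
          have := h1 y hy
          gcongr
        · refine ⟨y, hy, ?_⟩
          have := hlt y hy
          gcongr
      refine this.trans_eq ?_
      rw [Finset.sum_const, nsmul_eq_mul]
      field_simp
    apply hl0
    apply eq_zero_of_max (Q := Q) (x := x0) hx0int
    have := hx0F
    rw [hl] at this
    exact this.2
  obtain ⟨y, hy, hFy⟩ := hex
  refine ⟨y, hy, ?_⟩
  -- vectorSpan F = ker
  have hle : vectorSpan ℝ F ≤ LinearMap.ker (innerSL ℝ (a y)).toLinearMap := by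
    rw [vectorSpan_def, Submodule.span_le]
    rintro _ ⟨p, hp, q, hq, rfl⟩
    simp only [SetLike.mem_coe, LinearMap.mem_ker]
    show (innerSL ℝ (a y)) (p - q) = 0
    rw [innerSL_apply_apply, inner_sub_right, hFy p hp, hFy q hq, sub_self]
  have heq : vectorSpan ℝ F = LinearMap.ker (innerSL ℝ (a y)).toLinearMap := by
    apply Submodule.eq_of_le_of_finrank_eq hle
    have := finrank_ker_inner (ha y hy)
    omega
  have hlk : vectorSpan ℝ F ≤ LinearMap.ker l.toLinearMap := by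
    rw [vectorSpan_def, Submodule.span_le]
    rintro _ ⟨p, hp, q, hq, rfl⟩
    simp only [SetLike.mem_coe, LinearMap.mem_ker]
    show l (p - q) = 0
    rw [hl] at hp hq
    have h1 := hp.2 q hq.1
    have h2 := hq.2 p hp.1
    rw [map_sub]
    linarith
  rw [heq] at hlk
  obtain ⟨x1, hx1⟩ := hne
  ext w
  constructor
  · intro hw; exact ⟨hFQ hw, hFy w hw⟩
  · rintro ⟨hwQ, hwy⟩
    have h1 : w - x1 ∈ LinearMap.ker (innerSL ℝ (a y)).toLinearMap := by
      rw [LinearMap.mem_ker]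
      show (innerSL ℝ (a y)) (w - x1) = 0
      rw [innerSL_apply_apply, inner_sub_right, hwy, hFy x1 hx1, sub_self]
    have h2 := hlk h1
    rw [LinearMap.mem_ker] at h2
    have h3 : l (w - x1) = 0 := h2
    rw [map_sub] at h3
    rw [hl] at hx1 ⊢
    refine ⟨hwQ, fun z hz => ?_⟩
    have := hx1.2 z hz
    linarith

lemma facets_finite (hQ : Q = {w | ∀ y ∈ T, ⟪a y, w⟫_ℝ ≤ b y}) (ha : ∀ y ∈ T, a y ≠ 0)
    (h0 : (0 : E d) ∈ interior Q) : (facets Q).Finite := by
  refine ((T.finite_toSet).image (fun y => {w ∈ Q | ⟪a y, w⟫_ℝ = b y})).subset ?_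
  intro F hF
  obtain ⟨y, hy, h⟩ := facet_eq hQ ha h0 hF
  exact ⟨y, hy, h.symm⟩

/-- an irredundant description -/
lemma exists_irred (hQ : Q = {w | ∀ y ∈ T, ⟪a y, w⟫_ℝ ≤ b y}) :
    ∃ J ⊆ T, Q = {w | ∀ y ∈ J, ⟪a y, w⟫_ℝ ≤ b y} ∧
      ∀ j ∈ J, ∃ x : E d, b j < ⟪a j, x⟫_ℝ ∧ ∀ y ∈ J, y ≠ j → ⟪a y, x⟫_ℝ ≤ b y := by
  classical
  obtain ⟨J, hJ, hmin⟩ := Finset.exists_min_image
    (T.powerset.filter fun J => Q = {w | ∀ y ∈ J, ⟪a y, w⟫_ℝ ≤ b y}) Finset.card
    ⟨T, by simp [← hQ]⟩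
  rw [Finset.mem_filter, Finset.mem_powerset] at hJ
  refine ⟨J, hJ.1, hJ.2, fun j hj => ?_⟩
  by_contra hcon
  push Not at hcon
  have h1 : J.erase j ∈ (T.powerset.filter fun J => Q = {w | ∀ y ∈ J, ⟪a y, w⟫_ℝ ≤ b y}) := by
    rw [Finset.mem_filter, Finset.mem_powerset]
    refine ⟨(Finset.erase_subset _ _).trans hJ.1, ?_⟩
    rw [hJ.2]
    ext w
    constructor
    · intro hw y hy
      exact hw y (Finset.mem_of_mem_erase hy)
    · intro hw y hy
      by_cases hyj : y = j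
      · subst hyj
        by_contra hlt
        push Not at hlt
        obtain ⟨z, hz, hzj, hlt2⟩ := hcon w hlt
        have := hw z (Finset.mem_erase.2 ⟨hzj, hz⟩)
        linarith
      · exact hw y (Finset.mem_erase.2 ⟨hyj, hy⟩)
  have h2 := hmin _ h1
  have h3 := Finset.card_erase_lt_of_mem hj
  omega

/-- an irredundant description gives a facet for every inequality -/
lemma card_le_facets (hQ : Q = {w | ∀ y ∈ T, ⟪a y, w⟫_ℝ ≤ b y}) (ha : ∀ y ∈ T, a y ≠ 0)
    (hb : ∀ y ∈ T, 0 < b y)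
    (hirr : ∀ j ∈ T, ∃ x : E d, b j < ⟪a j, x⟫_ℝ ∧ ∀ y ∈ T, y ≠ j → ⟪a y, x⟫_ℝ ≤ b y) :
    (T.card : ℕ∞) ≤ (facets Q).encard := by
  classical
  have hz : ∀ j ∈ T, ∃ z : E d, ⟪a j, z⟫_ℝ = b j ∧ ∀ y ∈ T, y ≠ j → ⟪a y, z⟫_ℝ < b y := by
    intro j hj
    obtain ⟨x, hx1, hx2⟩ := hirr j hj
    have hbj := hb j hj
    have hpos : 0 < ⟪a j, x⟫_ℝ := hbj.trans hx1
    refine ⟨(b j / ⟪a j, x⟫_ℝ) • x, ?_, ?_⟩
    · rw [inner_smul_right]; field_simp
    · intro y hy hyj
      rw [inner_smul_right]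
      have ht : b j / ⟪a j, x⟫_ℝ < 1 := (div_lt_one hpos).2 hx1
      have ht0 : 0 < b j / ⟪a j, x⟫_ℝ := by positivity
      calc b j / ⟪a j, x⟫_ℝ * ⟪a y, x⟫_ℝ ≤ b j / ⟪a j, x⟫_ℝ * b y := by
            have := hx2 y hy hyj
            gcongr
        _ < 1 * b y := by
            have := hb y hy
            gcongr
        _ = b y := one_mul _
  choose! z hz1 hz2 using hz
  have hzQ : ∀ j ∈ T, z j ∈ Q := by
    intro j hj
    rw [hQ]
    intro y hy
    by_cases h : y = j
    · subst h; exact (hz1 y hy).le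
    · exact (hz2 j hj y hy h).le
  have hfac : ∀ j ∈ T, {w ∈ Q | ⟪a j, w⟫_ℝ = b j} ∈ facets Q := by
    intro j hj
    refine ⟨?_, ⟨z j, hzQ j hj, hz1 j hj⟩, ?_⟩
    · intro _
      refine ⟨innerSL ℝ (a j), ?_⟩
      ext w
      simp only [Set.mem_ofPred_eq, innerSL_apply_apply]
      constructor
      · rintro ⟨hw, hwj⟩
        refine ⟨hw, fun y hy => ?_⟩
        rw [hwj]
        rw [hQ] at hy
        exact hy j hj
      · rintro ⟨hw, hmax⟩
        refine ⟨hw, le_antisymm ?_ ?_⟩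
        · rw [hQ] at hw; exact hw j hj
        · rw [← hz1 j hj]; exact hmax _ (hzQ j hj)
    · have h1 : vectorSpan ℝ {w ∈ Q | ⟪a j, w⟫_ℝ = b j} = LinearMap.ker (innerSL ℝ (a j)).toLinearMap := by
        apply le_antisymm
        · rw [vectorSpan_def, Submodule.span_le]
          rintro _ ⟨p, hp, q, hq, rfl⟩
          simp only [SetLike.mem_coe, LinearMap.mem_ker]
          show (innerSL ℝ (a j)) (p - q) = 0
          rw [innerSL_apply_apply, inner_sub_right, hp.2, hq.2, sub_self]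
        · intro u hu
          rw [LinearMap.mem_ker] at hu
          have hu' : ⟪a j, u⟫_ℝ = 0 := hu
          have hev : ∀ᶠ ε : ℝ in 𝓝 0, ∀ y ∈ T, y ≠ j → ⟪a y, z j + ε • u⟫_ℝ < b y := by
            rw [Filter.eventually_all_finset]
            intro y hy
            by_cases h : y = j
            · exact Eventually.of_forall fun _ h' => absurd h h'
            · have hc : Continuous fun ε : ℝ => ⟪a y, z j + ε • u⟫_ℝ := by fun_prop
              have : ∀ᶠ ε : ℝ in 𝓝 0, ⟪a y, z j + ε • u⟫_ℝ < b y := by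
                apply hc.continuousAt.eventually_lt continuousAt_const
                simpa using hz2 j hj y hy h
              filter_upwards [this] with ε hε _ using hε
          obtain ⟨ε, hε1, hε2⟩ : ∃ ε : ℝ, 0 < ε ∧ ∀ y ∈ T, y ≠ j → ⟪a y, z j + ε • u⟫_ℝ < b y := by
            have h1 := (hev.filter_mono (nhdsWithin_le_nhds (s := Set.Ioi 0))).and self_mem_nhdsWithin
            obtain ⟨ε, h2, h3⟩ := h1.exists
            exact ⟨ε, h3, h2⟩
          have hmem : z j + ε • u ∈ {w ∈ Q | ⟪a j, w⟫_ℝ = b j} := by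
            have e : ⟪a j, z j + ε • u⟫_ℝ = b j := by
              rw [inner_add_right, inner_smul_right, hu', hz1 j hj]; ring
            refine ⟨?_, e⟩
            rw [hQ]
            intro y hy
            by_cases h : y = j
            · subst h; exact e.le
            · exact (hε2 y hy h).le
          have h4 : (z j + ε • u) -ᵥ z j ∈ vectorSpan ℝ {w ∈ Q | ⟪a j, w⟫_ℝ = b j} :=
            vsub_mem_vectorSpan ℝ hmem ⟨hzQ j hj, hz1 j hj⟩
          have h5 : u = ε⁻¹ • ((z j + ε • u) -ᵥ z j) := by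
            rw [vsub_eq_sub, add_sub_cancel_left, smul_smul, inv_mul_cancel₀ hε1.ne', one_smul]
          rw [h5]
          exact Submodule.smul_mem _ _ h4
      rw [h1]
      exact finrank_ker_inner (ha j hj)
  have hinj : Set.InjOn (fun j => {w ∈ Q | ⟪a j, w⟫_ℝ = b j}) (T : Set τ) := by
    intro i hi j hj hij
    by_contra hne
    have h1 : z i ∈ {w ∈ Q | ⟪a i, w⟫_ℝ = b i} := ⟨hzQ i hi, hz1 i hi⟩
    have hij' : {w ∈ Q | ⟪a i, w⟫_ℝ = b i} = {w ∈ Q | ⟪a j, w⟫_ℝ = b j} := hij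
    rw [hij'] at h1
    have := hz2 i hi j hj (fun h => hne h.symm)
    exact absurd h1.2 this.ne
  rw [← Set.encard_coe_eq_coe_finsetCard, ← hinj.encard_image]
  apply Set.encard_le_encard
  rintro _ ⟨j, hj, rfl⟩
  exact hfac j hj

/-- the unit vectors used to bound the number of half-spaces from below -/
noncomputable def uu (hd : 2 ≤ d) (x : ℝ) : E d :=
  √(1 - x ^ 2) • EuclideanSpace.single (⟨0, by omega⟩ : Fin d) (1 : ℝ) +
    x • EuclideanSpace.single (⟨1, by omega⟩ : Fin d) (1 : ℝ)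

lemma norm_uu (hd : 2 ≤ d) {x : ℝ} (hx : x ^ 2 ≤ 1) : ‖uu hd x‖ = 1 := by
  have h : ‖uu hd x‖ ^ 2 = 1 := by
    unfold uu
    rw [norm_add_sq_real, norm_smul, norm_smul, inner_smul_left, inner_smul_right]
    have e : ⟪EuclideanSpace.single (⟨0, by omega⟩ : Fin d) (1 : ℝ), 
        EuclideanSpace.single (⟨1, by omega⟩ : Fin d) (1 : ℝ)⟫_ℝ = 0 := by
      rw [EuclideanSpace.inner_single_left]
      simp
    rw [e]
    simp only [PiLp.norm_single, norm_one, mul_one, mul_zero, add_zero]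
    rw [Real.norm_eq_abs, Real.norm_eq_abs, sq_abs, sq_abs, Real.sq_sqrt (by linarith)]
    ring
  have h0 : 0 ≤ ‖uu hd x‖ := norm_nonneg _
  nlinarith

lemma uu_apply (hd : 2 ≤ d) (x : ℝ) : (uu hd x) ⟨1, by omega⟩ = x := by
  unfold uu
  simp

lemma uu_dist (hd : 2 ≤ d) (x y : ℝ) : |x - y| ≤ ‖uu hd x - uu hd y‖ := by
  have h := PiLp.norm_apply_le (uu hd x - uu hd y) ⟨1, by omega⟩
  rw [PiLp.sub_apply, uu_apply, uu_apply, Real.norm_eq_abs] at h
  exact h

/-- the cap argument -/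
lemma card_lower (hd : 2 ≤ d) (hQ : Q = {w | ∀ y ∈ T, ⟪a y, w⟫_ℝ ≤ b y}) (ha : ∀ y ∈ T, a y ≠ 0)
    {r R : ℝ} (hr : 0 < r) (hin : Metric.closedBall 0 r ⊆ Q)
    (hout : Q ⊆ Metric.closedBall 0 R) {M : ℕ} (hM : 8 * (M : ℝ) ^ 2 * (R - r) < R) :
    M ≤ T.card := by
  classical
  have hrR : r ≤ R := by
    have h1 : (r • uu hd 0 : E d) ∈ Metric.closedBall (0 : E d) r := by
      rw [mem_closedBall_zero_iff, norm_smul, norm_uu hd (by norm_num), mul_one, 
        Real.norm_of_nonneg hr.le]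
    have h2 := hout (hin h1)
    rw [mem_closedBall_zero_iff, norm_smul, norm_uu hd (by norm_num), mul_one, 
        Real.norm_of_nonneg hr.le] at h2
    exact h2
  have hR : 0 < R := hr.trans_le hrR
  -- b y ≥ r ‖a y‖
  have hb : ∀ y ∈ T, r * ‖a y‖ ≤ b y := by
    intro y hy
    have hn : 0 < ‖a y‖ := norm_pos_iff.2 (ha y hy)
    have h1 : ((r / ‖a y‖) • a y : E d) ∈ Q := by
      apply hin
      rw [mem_closedBall_zero_iff, norm_smul, Real.norm_of_nonneg (by positivity)]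
      field_simp
      exact le_refl _
    rw [hQ] at h1
    have h2 := h1 y hy
    rw [inner_smul_right, real_inner_self_eq_norm_sq] at h2
    refine le_trans (le_of_eq ?_) h2
    field_simp
  -- choice of ρ
  obtain ⟨ρ, hρ1, hρ2⟩ : ∃ ρ, R < ρ ∧ 8 * (M : ℝ) ^ 2 * (ρ - r) < ρ := by
    have hc : Continuous fun ρ : ℝ => ρ - 8 * (M : ℝ) ^ 2 * (ρ - r) := by fun_prop
    have h1 : ∀ᶠ ρ in 𝓝 R, 0 < ρ - 8 * (M : ℝ) ^ 2 * (ρ - r) := by
      apply continuousAt_const.eventually_lt hc.continuousAt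
      linarith
    have h2 := (h1.filter_mono (nhdsWithin_le_nhds (s := Set.Ioi R))).and self_mem_nhdsWithin
    obtain ⟨ρ, h3, h4⟩ := h2.exists
    exact ⟨ρ, h4, by linarith⟩
  have hρ0 : 0 < ρ := hR.trans hρ1
  rcases Nat.eq_zero_or_pos M with hM0 | hM0
  · omega
  have hMR : (0 : ℝ) < M := by exact_mod_cast hM0
  have hx : ∀ k : ℕ, k < M → ((k : ℝ) / M) ^ 2 ≤ 1 := by
    intro k hk
    have h1 : (k : ℝ) / M ≤ 1 := (div_le_one hMR).2 (by exact_mod_cast hk.le)
    have h2 : 0 ≤ (k : ℝ) / M := by positivity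
    exact pow_le_one₀ h2 h1
  have hex : ∀ k : ℕ, k < M → ∃ y ∈ T, r * ‖a y‖ < ρ * ⟪a y, uu hd (k / M)⟫_ℝ := by
    intro k hk
    by_contra hcon
    push Not at hcon
    have h1 : (ρ • uu hd (k / M) : E d) ∈ Q := by
      rw [hQ]
      intro y hy
      rw [inner_smul_right]
      exact (hcon y hy).trans (hb y hy)
    have h2 := hout h1
    rw [mem_closedBall_zero_iff, norm_smul, norm_uu hd (hx k hk), mul_one, 
        Real.norm_of_nonneg hρ0.le] at h2
    linarith
  have : Nonempty τ := by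
    obtain ⟨y0, -, -⟩ := hex 0 hM0
    exact ⟨y0⟩
  choose! g hg1 hg2 using hex
  have hcard : (Finset.range M).card ≤ T.card := by
    apply Finset.card_le_card_of_injOn g
    · intro k hk
      exact hg1 k (Finset.mem_range.1 hk)
    · intro k hk l hl hkl
      rw [Finset.mem_coe, Finset.mem_range] at hk hl
      by_contra hne
      set y := g k with hy
      have hyT : y ∈ T := hg1 k hk
      have hn : 0 < ‖a y‖ := norm_pos_iff.2 (ha y hyT)
      set e : E d := (‖a y‖)⁻¹ • a y with he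
      have he1 : ‖e‖ = 1 := by
        rw [he, norm_smul, norm_inv, norm_norm, inv_mul_cancel₀ hn.ne']
      have key : ∀ m : ℕ, m < M → g m = y → ‖uu hd (m / M) - e‖ ^ 2 ≤ 2 * (ρ - r) / ρ := by
        intro m hm hgm
        have h1 := hg2 m hm
        rw [hgm] at h1
        rw [norm_sub_sq_real, norm_uu hd (hx m hm), he1, he, inner_smul_right, real_inner_comm]
        have h2 : r / ρ ≤ ‖a y‖⁻¹ * ⟪a y, uu hd (m / M)⟫_ℝ := by
          rw [div_le_iff₀ hρ0]
          have h3 : r = ‖a y‖⁻¹ * (r * ‖a y‖) := by field_simp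
          rw [h3]
          calc ‖a y‖⁻¹ * (r * ‖a y‖) ≤ ‖a y‖⁻¹ * (ρ * ⟪a y, uu hd (m / M)⟫_ℝ) := by gcongr
            _ = _ := by ring
        have h4 : 2 * (ρ - r) / ρ = 2 - 2 * (r / ρ) := by field_simp
        rw [h4]
        linarith
      have k1 := key k hk rfl
      have k2 := key l hl hkl.symm
      have htri : ‖uu hd (k / M) - uu hd (l / M)‖ ≤ ‖uu hd (k / M) - e‖ + ‖uu hd (l / M) - e‖ := by
        have : uu hd (k / M) - uu hd (l / M) = (uu hd (k / M) - e) - (uu hd (l / M) - e) := by abel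
        rw [this]
        exact norm_sub_le _ _
      have hlow : 1 / (M : ℝ) ≤ ‖uu hd (k / M) - uu hd (l / M)‖ := by
        refine le_trans ?_ (uu_dist hd _ _)
        rw [← sub_div, abs_div, abs_of_pos hMR]
        gcongr
        have : (1 : ℤ) ≤ |(k : ℤ) - l| := by
          apply Int.one_le_abs
          omega
        exact_mod_cast this
      have h5 : (1 / (M : ℝ)) ^ 2 ≤ 8 * (ρ - r) / ρ := by
        have h6 : (1 / (M : ℝ)) ≤ ‖uu hd (k / M) - e‖ + ‖uu hd (l / M) - e‖ := hlow.trans htri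
        have h7 : (1 / (M : ℝ)) ^ 2 ≤ (‖uu hd (k / M) - e‖ + ‖uu hd (l / M) - e‖) ^ 2 := by gcongr
        have h8 : (‖uu hd (k / M) - e‖ + ‖uu hd (l / M) - e‖) ^ 2 ≤ 
            2 * ‖uu hd (k / M) - e‖ ^ 2 + 2 * ‖uu hd (l / M) - e‖ ^ 2 := by
          nlinarith [sq_nonneg (‖uu hd (k / M) - e‖ - ‖uu hd (l / M) - e‖)]
        have h9 : 8 * (ρ - r) / ρ = 4 * (2 * (ρ - r) / ρ) := by ring
        rw [h9]
        linarith
      rw [div_pow, one_pow, div_le_div_iff₀ (by positivity) hρ0] at h5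
      linarith
  rwa [Finset.card_range] at hcard

/-- main geometric statement -/
theorem poly_main (hd : 2 ≤ d) (hQ : Q = {w | ∀ y ∈ T, ⟪a y, w⟫_ℝ ≤ b y}) (ha : ∀ y ∈ T, a y ≠ 0)
    {r R : ℝ} (hr : 0 < r) (hin : Metric.closedBall 0 r ⊆ Q)
    (hout : Q ⊆ Metric.closedBall 0 R) {M : ℕ} (hM : 8 * (M : ℝ) ^ 2 * (R - r) < R) :
    ∃ n : ℕ, M ≤ n ∧ PolyN n Q := by
  classical
  have h0 : (0 : E d) ∈ interior Q := by
    rw [mem_interior_iff_mem_nhds]
    exact Filter.mem_of_superset (Metric.closedBall_mem_nhds 0 hr) hin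
  have hfin := facets_finite hQ ha h0
  obtain ⟨J, hJT, hJQ, hirr⟩ := exists_irred hQ
  have haJ : ∀ y ∈ J, a y ≠ 0 := fun y hy => ha y (hJT hy)
  have hbJ : ∀ y ∈ J, 0 < b y := by
    intro y hy
    have hn : 0 < ‖a y‖ := norm_pos_iff.2 (haJ y hy)
    have h1 : ((r / ‖a y‖) • a y : E d) ∈ Q := by
      apply hin
      rw [mem_closedBall_zero_iff, norm_smul, Real.norm_of_nonneg (by positivity)]
      field_simp
      exact le_refl _
    rw [hJQ] at h1
    have h2 := h1 y hy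
    rw [inner_smul_right, real_inner_self_eq_norm_sq] at h2
    refine lt_of_lt_of_le ?_ h2
    positivity
  have h1 := card_le_facets hJQ haJ hbJ hirr
  have h2 := card_lower hd hJQ haJ hr hin hout hM
  refine ⟨(facets Q).ncard, ?_, ⟨?_, ?_⟩, ?_⟩
  · have h3 : (J.card : ℕ∞) ≤ ((facets Q).ncard : ℕ∞) := by
      rw [hfin.cast_ncard_eq]; exact h1
    have h4 : J.card ≤ (facets Q).ncard := by exact_mod_cast h3
    omega
  · exact Metric.isBounded_closedBall.subset hout
  · refine ⟨(fun y => {w | inner ℝ (a y) w ≤ b y}) '' (T : Set τ), T.finite_toSet.image _, ?_, ?_⟩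
    · rintro _ ⟨y, hy, rfl⟩
      exact ⟨a y, ha y hy, b y, rfl⟩
    · rw [hQ]
      ext w
      simp
  · exact (hfin.cast_ncard_eq).symm

end Pool.Agent.R970.Vor
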